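import Mathlib

/-!
# An abstract construction of compact operators close to the identity

`E` is a uniformly convex complex Banach space with a sequence of compact contractions `F N`
converging strongly to the identity.
-/

namespace Pool.Agent.Work.MP_d7cff0_an

open Filter Topology Finset

variable {E : Type*} [NormedAddCommGroup E] [NormedSpace ℂ E]

/-- Uniform convexity. -/
def UC (E : Type*) [NormedAddCommGroup E] : Prop :=
  ∀ δ : ℝ, 0 < δ → ∃ δ' : ℝ, 0 < δ' ∧ ∀ x y : E, ‖x‖ ≤ 1 → ‖y‖ ≤ 1 → δ ≤ ‖x - y‖ →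
    ‖x + y‖ ≤ 2 - δ'

/-- Scaled uniform convexity. -/
lemma UC.scaled (h : UC E) {δ R : ℝ} (hδ : 0 < δ) (hR : 0 < R) : ∃ δ' : ℝ, 0 < δ' ∧
    ∀ (r : ℝ) (x y : E), r ≤ R → ‖x‖ ≤ r → ‖y‖ ≤ r → δ ≤ ‖x - y‖ → ‖x + y‖ ≤ 2 * r - δ' := by
  obtain ⟨d, hd, H⟩ := h (δ / R) (by positivity)
  refine ⟨d * (δ / 2), by positivity, fun r x y hrR hx hy hxy => ?_⟩
  have hr2 : δ ≤ 2 * r := hxy.trans ((norm_sub_le _ _).trans (by linarith))
  have hr : 0 < r := by linarith
  have hc : ‖((r⁻¹ : ℝ) : ℂ)‖ = r⁻¹ := by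
    rw [Complex.norm_real, Real.norm_eq_abs, abs_of_pos (inv_pos.2 hr)]
  have hx' : ‖((r⁻¹ : ℝ) : ℂ) • x‖ ≤ 1 := by
    rw [norm_smul, hc, inv_mul_le_iff₀ hr]; simpa using hx
  have hy' : ‖((r⁻¹ : ℝ) : ℂ) • y‖ ≤ 1 := by
    rw [norm_smul, hc, inv_mul_le_iff₀ hr]; simpa using hy
  have hxy' : δ / R ≤ ‖((r⁻¹ : ℝ) : ℂ) • x - ((r⁻¹ : ℝ) : ℂ) • y‖ := by
    rw [← smul_sub, norm_smul, hc, div_eq_inv_mul]
    gcongr
  have h1 := H _ _ hx' hy' hxy'
  rw [← smul_add, norm_smul, hc, inv_mul_le_iff₀ hr] at h1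
  nlinarith

/-- Data: compact contractions tending strongly to the identity, asymptotically commuting
projections. -/
structure LowPass (E : Type*) [NormedAddCommGroup E] [NormedSpace ℂ E] where
  F : ℕ → E →L[ℂ] E
  norm_le : ∀ N u, ‖F N u‖ ≤ ‖u‖
  cpt : ∀ N, IsCompactOperator (F N)
  comp : ∀ N, ∀ ε : ℝ, 0 < ε → ∃ N₁, ∀ N', N₁ ≤ N' → ∀ u, ‖F N (F N' u) - F N u‖ ≤ ε * ‖u‖
  lim : ∀ u, Tendsto (fun N => F N u) atTop (𝓝 u)

/-- The adjoints converge strongly: for every functional `z`, `z ∘ (1 - F N) → 0` in norm. -/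
theorem LowPass.adjoint (S : LowPass E) (hUC : UC E) (z : StrongDual ℂ E) {ε : ℝ} (hε : 0 < ε) :
    ∃ N₀, ∀ N, N₀ ≤ N → ∀ u : E, ‖z (u - S.F N u)‖ ≤ ε * ‖u‖ := by
  by_contra hcon
  push Not at hcon
  -- vectors
  have hvec : ∀ N₀, ∃ N, N₀ ≤ N ∧ ∃ u : E, ‖u‖ ≤ 1 ∧ ε ≤ (z (u - S.F N u)).re := by
    intro N₀
    obtain ⟨N, hN, u, hu⟩ := hcon N₀
    refine ⟨N, hN, ?_⟩
    have hu0 : 0 < ‖u‖ := by
      rcases (norm_nonneg u).eq_or_lt with h | h
      · exfalso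
        have h0 : u = 0 := norm_eq_zero.1 h.symm
        rw [h0] at hu; simp at hu
      · exact h
    set t : ℂ := z (u - S.F N u) with ht
    have ht0 : 0 < ‖t‖ := lt_of_le_of_lt (by positivity) hu
    set c : ℂ := (starRingEnd ℂ t) / (‖t‖ * ‖u‖ : ℝ) with hc
    have hcn : ‖c‖ = ‖u‖⁻¹ := by
      rw [hc, norm_div, RCLike.norm_conj, Complex.norm_real, Real.norm_eq_abs,
        abs_of_pos (by positivity)]
      field_simp
    refine ⟨c • u, ?_, ?_⟩
    · rw [norm_smul, hcn, inv_mul_cancel₀ hu0.ne']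
    · rw [map_smul, ← smul_sub, map_smul, ← ht, smul_eq_mul, hc, div_mul_eq_mul_div,
        mul_comm (starRingEnd ℂ t) t, Complex.mul_conj, Complex.normSq_eq_norm_sq]
      rw [← Complex.ofReal_div, Complex.ofReal_re]
      rw [le_div_iff₀ (by positivity)]
      nlinarith
  -- thresholds
  have hthr : ∀ N : ℕ, ∀ η : ℝ, ∃ N₁, 0 < η → ∀ N', N₁ ≤ N' → ∀ u,
      ‖S.F N (S.F N' u) - S.F N u‖ ≤ η * ‖u‖ := by
    intro N η
    by_cases hη : 0 < η
    · obtain ⟨N₁, h⟩ := S.comp N η hη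
      exact ⟨N₁, fun _ => h⟩
    · exact ⟨0, fun h => absurd h hη⟩
  choose n1 hn1 using hthr
  -- the convex sets
  let H : ℕ → Set E := fun N₀ => {x : E | ε ≤ (z x).re ∧ ‖x‖ ≤ 2 ∧
    ∀ (N : ℕ) (η : ℝ), 0 < η → n1 N η ≤ N₀ → ‖S.F N x‖ ≤ η}
  have hne : ∀ N₀, (H N₀).Nonempty := by
    intro N₀
    obtain ⟨N, hN, u, hu, hzu⟩ := hvec N₀
    refine ⟨u - S.F N u, hzu, ?_, ?_⟩
    · refine (norm_sub_le _ _).trans ?_
      have := S.norm_le N u
      linarith
    · intro M η hη hM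
      rw [map_sub, norm_sub_rev]
      refine (hn1 M η hη N (hM.trans hN) u).trans ?_
      nlinarith
  have hanti : ∀ N₀ N₁, N₀ ≤ N₁ → H N₁ ⊆ H N₀ := fun N₀ N₁ h x hx =>
    ⟨hx.1, hx.2.1, fun N η hη hN => hx.2.2 N η hη (hN.trans h)⟩
  let r : ℕ → ℝ := fun N₀ => sInf (norm '' H N₀)
  have hbdd : ∀ N₀, BddBelow (norm '' H N₀) := fun N₀ =>
    ⟨0, by rintro _ ⟨x, _, rfl⟩; exact norm_nonneg x⟩
  have hrle : ∀ N₀, ∀ x ∈ H N₀, r N₀ ≤ ‖x‖ := fun N₀ x hx => csInf_le (hbdd N₀) ⟨x, hx, rfl⟩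
  have hr2 : ∀ N₀, r N₀ ≤ 2 := by
    intro N₀
    obtain ⟨x, hx⟩ := hne N₀
    exact (hrle N₀ x hx).trans hx.2.1
  set ρ₀ : ℝ := ε / (‖z‖ + 1) with hρ₀
  have hzpos : 0 < ‖z‖ + 1 := by positivity
  have hρ₀pos : 0 < ρ₀ := by positivity
  have hnorm_low : ∀ N₀, ∀ x ∈ H N₀, ρ₀ ≤ ‖x‖ := by
    intro N₀ x hx
    rw [hρ₀, div_le_iff₀ hzpos]
    have h1 : (z x).re ≤ ‖z x‖ := Complex.re_le_norm _
    have h2 := z.le_opNorm x
    have h3 := hx.1
    nlinarith [norm_nonneg x]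
  have hrlow : ∀ N₀, ρ₀ ≤ r N₀ := by
    intro N₀
    refine le_csInf ((hne N₀).image _) ?_
    rintro _ ⟨x, hx, rfl⟩
    exact hnorm_low N₀ x hx
  have hbr : BddAbove (Set.range r) := ⟨2, by rintro _ ⟨N, rfl⟩; exact hr2 N⟩
  set ρ : ℝ := sSup (Set.range r) with hρ
  have hrρ : ∀ N₀, r N₀ ≤ ρ := fun N₀ => le_csSup hbr ⟨N₀, rfl⟩
  have hρ2 : ρ ≤ 2 := csSup_le (Set.range_nonempty r) (by rintro _ ⟨N, rfl⟩; exact hr2 N)
  obtain ⟨δ', hδ', hU⟩ := hUC.scaled (δ := ρ₀ / 2) (R := 3) (by positivity) (by norm_num)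
  set τ : ℝ := min (δ' / 8) (min (ρ₀ / 8) 1) with hτ
  have hτpos : 0 < τ := by positivity
  have hτ1 : τ ≤ δ' / 8 := min_le_left _ _
  have hτ2 : τ ≤ ρ₀ / 8 := (min_le_right _ _).trans (min_le_left _ _)
  have hτ3 : τ ≤ 1 := (min_le_right _ _).trans (min_le_right _ _)
  obtain ⟨_, ⟨N₀, rfl⟩, hN₀⟩ := exists_lt_of_lt_csSup (Set.range_nonempty r)
    (show ρ - τ < sSup (Set.range r) by rw [← hρ]; linarith)
  have hex : ∀ N₁, ∃ x ∈ H N₁, ‖x‖ < ρ + τ := by
    intro N₁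
    have h1 : sInf (norm '' H N₁) < ρ + τ := lt_of_le_of_lt (hrρ N₁) (by linarith)
    obtain ⟨_, ⟨x, hx, rfl⟩, hlt⟩ := exists_lt_of_csInf_lt ((hne N₁).image _) h1
    exact ⟨x, hx, hlt⟩
  obtain ⟨f, hf, hfn⟩ := hex N₀
  obtain ⟨N, hN⟩ : ∃ N, ‖S.F N f - f‖ < τ := by
    have h1 := (S.lim f)
    rw [Metric.tendsto_atTop] at h1
    obtain ⟨N, hN⟩ := h1 τ hτpos
    exact ⟨N, by simpa [dist_eq_norm] using hN N le_rfl⟩
  obtain ⟨h, hh, hhn⟩ := hex (max N₀ (n1 N τ))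
  have hFh : ‖S.F N h‖ ≤ τ := hh.2.2 N τ hτpos (le_max_right _ _)
  have hh0 : h ∈ H N₀ := hanti _ _ (le_max_left _ _) hh
  have hlow : ρ₀ / 2 ≤ ‖f - h‖ := by
    have h1 : ‖S.F N (f - h)‖ ≤ ‖f - h‖ := S.norm_le N _
    have h2 : ‖f‖ ≤ ‖S.F N (f - h)‖ + ‖S.F N f - f‖ + ‖S.F N h‖ := by
      have e : f = S.F N (f - h) - (S.F N f - f) + S.F N h := by rw [map_sub]; abel
      calc ‖f‖ = ‖S.F N (f - h) - (S.F N f - f) + S.F N h‖ := by rw [← e]
        _ ≤ ‖S.F N (f - h) - (S.F N f - f)‖ + ‖S.F N h‖ := norm_add_le _ _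
        _ ≤ _ := by gcongr; exact norm_sub_le _ _
    have h3 := hrle N₀ f hf
    have h4 := hrlow N₀
    linarith
  have hsum : ‖f + h‖ ≤ 2 * (ρ + τ) - δ' :=
    hU (ρ + τ) f h (by linarith) hfn.le hhn.le hlow
  have hmid : ((1 / 2 : ℝ) : ℂ) • (f + h) ∈ H N₀ := by
    have hnc : ‖((1 / 2 : ℝ) : ℂ)‖ = 1 / 2 := by
      rw [Complex.norm_real, Real.norm_eq_abs, abs_of_pos (by norm_num)]
    refine ⟨?_, ?_, ?_⟩
    · rw [map_smul, map_add, smul_eq_mul, Complex.re_ofReal_mul, Complex.add_re]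
      have h1 := hf.1
      have h2 := hh0.1
      linarith
    · rw [norm_smul, hnc]
      have h1 := hf.2.1
      have h2 := hh0.2.1
      have := norm_add_le f h
      linarith
    · intro M η hη hM
      rw [map_smul, map_add, norm_smul, hnc]
      have h1 := hf.2.2 M η hη hM
      have h2 := hh0.2.2 M η hη hM
      have := norm_add_le (S.F M f) (S.F M h)
      linarith
  have hfin := hrle N₀ _ hmid
  rw [norm_smul, Complex.norm_real, Real.norm_eq_abs, abs_of_pos (by norm_num)] at hfin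
  linarith

lemma isCompactOperator_sum (f : ℕ → E →L[ℂ] E) (hf : ∀ i, IsCompactOperator (f i)) (K : ℕ) :
    IsCompactOperator (∑ i ∈ range K, f i : E →L[ℂ] E) := by
  induction K with
  | zero => simpa using isCompactOperator_zero
  | succ K ih =>
    rw [sum_range_succ]
    exact ih.add (hf K)

lemma sum_telescope (A : ℕ → ℝ) (h0 : ∀ i, 0 ≤ A i) (h1 : ∀ i, A i ≤ 1) (K : ℕ) :
    ∑ i ∈ range K, (A (i + 2) - A i) ≤ 2 := by
  have : ∀ K, ∑ i ∈ range K, (A (i + 2) - A i) = A (K + 1) + A K - A 1 - A 0 := by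
    intro K
    induction K with
    | zero => simp
    | succ K ih => rw [sum_range_succ, ih]; ring
  rw [this]
  linarith [h0 0, h0 1, h1 K, h1 (K + 1)]

/-- The main abstract construction. -/
theorem LowPass.exists_compact (S : LowPass E) (hUC : UC E) {β : ℝ} (hβ : 0 ≤ β)
    (hloc : ∀ N, ∀ ε : ℝ, 0 < ε → ∃ N₁, ∀ N', N₁ ≤ N' → ∀ u : E,
      ‖u - S.F N' u‖ ≤ β * ‖u - (S.F N' u - S.F N u)‖ + ε * ‖u‖)
    {M : ℝ} (hM : β < M) {ε : ℝ} (hε : 0 < ε) (G : Finset (StrongDual ℂ E)) :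
    ∃ T : E →L[ℂ] E, IsCompactOperator T ∧ (∀ u, ‖u - T u‖ ≤ M * ‖u‖) ∧
      ∀ z ∈ G, ∀ u, ‖z (u - T u)‖ ≤ ε * ‖u‖ := by
  classical
  -- the starting index
  obtain ⟨Ns, hNs⟩ : ∃ Ns, ∀ z ∈ G, ∀ N, Ns ≤ N → ∀ u : E, ‖z (u - S.F N u)‖ ≤ ε * ‖u‖ := by
    choose n0 hn0 using fun z : StrongDual ℂ E => S.adjoint hUC z hε
    refine ⟨G.sup n0, fun z hz N hN u => hn0 z N ((Finset.le_sup hz).trans hN) u⟩
  -- parameters
  set γ : ℝ := (M - β) / 4 with hγ
  have hγpos : 0 < γ := by rw [hγ]; linarith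
  have hβ1 : 0 < β + 1 := by linarith
  set δ : ℝ := γ / (β + 1) with hδ
  have hδpos : 0 < δ := by positivity
  obtain ⟨δ', hδ', hU⟩ := hUC.scaled hδpos (R := 1) one_pos
  set η : ℝ := min γ (γ * δ' / (8 * (β + 1))) with hη
  have hηpos : 0 < η := by positivity
  have hη1 : η ≤ γ := min_le_left _ _
  have hη2 : 8 * β * η / δ' ≤ γ := by
    have h1 : η ≤ γ * δ' / (8 * (β + 1)) := min_le_right _ _
    rw [div_le_iff₀ hδ']
    have h2 : η * (8 * (β + 1)) ≤ γ * δ' := by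
      rwa [le_div_iff₀ (by positivity)] at h1
    nlinarith
  obtain ⟨K, hK⟩ := exists_nat_gt (8 * (β + 1) / (δ' * γ))
  have hKpos : (0 : ℝ) < K := lt_of_le_of_lt (by positivity) hK
  have hK0 : 0 < K := by exact_mod_cast hKpos
  have hK1 : 8 * β / (K * δ') ≤ γ := by
    rw [div_le_iff₀ (by positivity)]
    rw [div_lt_iff₀ (by positivity)] at hK
    nlinarith
  -- thresholds
  have hthr : ∀ N : ℕ, ∃ N₁, ∀ N', N₁ ≤ N' → ∀ u : E,
      ‖S.F N (S.F N' u) - S.F N u‖ ≤ η * ‖u‖ ∧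
      ‖u - S.F N' u‖ ≤ β * ‖u - (S.F N' u - S.F N u)‖ + η * ‖u‖ := by
    intro N
    obtain ⟨N₁, h1⟩ := S.comp N η hηpos
    obtain ⟨N₂, h2⟩ := hloc N η hηpos
    exact ⟨max N₁ N₂, fun N' hN' u =>
      ⟨h1 N' ((le_max_left _ _).trans hN') u, h2 N' ((le_max_right _ _).trans hN') u⟩⟩
  choose n1 hn1 using hthr
  obtain ⟨s, hs0, hs⟩ : ∃ s : ℕ → ℕ, s 0 = Ns ∧ ∀ n, s (n + 1) = max (s n) (n1 (s n)) :=
    ⟨fun n => Nat.rec (motive := fun _ => ℕ) Ns (fun _ m => max m (n1 m)) n, rfl, fun n => rfl⟩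
  have hmono : Monotone s := monotone_nat_of_le_succ (fun n => by rw [hs]; exact le_max_left _ _)
  have hsn1 : ∀ i j, i < j → n1 (s i) ≤ s j := fun i j hij =>
    (le_max_right (s i) (n1 (s i))).trans ((hs i).symm.le.trans (hmono (Nat.succ_le_of_lt hij)))
  have hsNs : ∀ i, Ns ≤ s i := fun i => by rw [← hs0]; exact hmono (Nat.zero_le i)
  set T : E →L[ℂ] E := ((1 / K : ℝ) : ℂ) • ∑ i ∈ range K, S.F (s (i + 2)) with hT
  have hTapply : ∀ u, u - T u = ((1 / K : ℝ) : ℂ) • ∑ i ∈ range K, (u - S.F (s (i + 2)) u) := by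
    intro u
    have e1 : T u = ((1 / K : ℝ) : ℂ) • ∑ i ∈ range K, S.F (s (i + 2)) u := by
      rw [hT]
      simp
    rw [e1, sum_sub_distrib, smul_sub]
    congr 1
    rw [sum_const, card_range, ← Nat.cast_smul_eq_nsmul ℂ, smul_smul]
    have : ((1 / K : ℝ) : ℂ) * (K : ℂ) = 1 := by
      push_cast
      have : (K : ℂ) ≠ 0 := by exact_mod_cast hK0.ne'
      field_simp
    rw [this, one_smul]
  have hnK : ‖((1 / K : ℝ) : ℂ)‖ = 1 / K := by
    rw [Complex.norm_real, Real.norm_eq_abs, abs_of_pos (by positivity)]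
  refine ⟨T, ?_, ?_, ?_⟩
  · exact (isCompactOperator_sum _ (fun i => S.cpt _) K).smul _
  · -- the norm bound, first for `‖u‖ ≤ 1`
    have key : ∀ u : E, ‖u‖ ≤ 1 → ‖u - T u‖ ≤ M := by
      intro u hu
      set A : ℕ → ℝ := fun i => ‖S.F (s i) u‖ with hA
      set d : ℕ → ℝ := fun i => ‖S.F (s (i + 2)) u - S.F (s (i + 1)) u‖ with hd
      have hA0 : ∀ i, 0 ≤ A i := fun i => norm_nonneg _
      have hA1 : ∀ i, A i ≤ 1 := fun i => (S.norm_le _ _).trans hu
      have hd2 : ∀ i, d i ≤ 2 := fun i => (norm_sub_le _ _).trans (by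
        have := hA1 (i + 2); have := hA1 (i + 1); simp only [hA] at *; linarith)
      have hcomp : ∀ i j, i < j → ‖S.F (s i) (S.F (s j) u) - S.F (s i) u‖ ≤ η := by
        intro i j hij
        refine ((hn1 (s i) (s j) (hsn1 i j hij) u).1).trans ?_
        nlinarith
      have ha : ∀ i, A i ≤ A (i + 1) + η := by
        intro i
        have h1 := hcomp i (i + 1) (by omega)
        have h2 := S.norm_le (s i) (S.F (s (i + 1)) u)
        have h3 : ‖S.F (s i) u‖ ≤ ‖S.F (s i) (S.F (s (i + 1)) u)‖ +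
            ‖S.F (s i) (S.F (s (i + 1)) u) - S.F (s i) u‖ := by
          have e : S.F (s i) u = S.F (s i) (S.F (s (i + 1)) u) -
            (S.F (s i) (S.F (s (i + 1)) u) - S.F (s i) u) := by abel
          calc ‖S.F (s i) u‖ = ‖S.F (s i) (S.F (s (i + 1)) u) -
            (S.F (s i) (S.F (s (i + 1)) u) - S.F (s i) u)‖ := by rw [← e]
            _ ≤ _ := norm_sub_le _ _
        simp only [hA]
        linarith
      have hb : ∀ i, 2 * A i ≤ ‖S.F (s (i + 1)) u + S.F (s (i + 2)) u‖ + 2 * η := by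
        intro i
        have h1 := hcomp i (i + 1) (by omega)
        have h1' := hcomp i (i + 2) (by omega)
        have h2 := S.norm_le (s i) (S.F (s (i + 1)) u + S.F (s (i + 2)) u)
        rw [map_add] at h2
        have h3 : ‖S.F (s i) u + S.F (s i) u‖ ≤
            ‖S.F (s i) (S.F (s (i + 1)) u) + S.F (s i) (S.F (s (i + 2)) u)‖ +
            ‖S.F (s i) (S.F (s (i + 1)) u) - S.F (s i) u‖ +
            ‖S.F (s i) (S.F (s (i + 2)) u) - S.F (s i) u‖ := by
          have e : S.F (s i) u + S.F (s i) u =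
            (S.F (s i) (S.F (s (i + 1)) u) + S.F (s i) (S.F (s (i + 2)) u)) -
            (S.F (s i) (S.F (s (i + 1)) u) - S.F (s i) u) -
            (S.F (s i) (S.F (s (i + 2)) u) - S.F (s i) u) := by abel
          calc _ = ‖(S.F (s i) (S.F (s (i + 1)) u) + S.F (s i) (S.F (s (i + 2)) u)) -
            (S.F (s i) (S.F (s (i + 1)) u) - S.F (s i) u) -
            (S.F (s i) (S.F (s (i + 2)) u) - S.F (s i) u)‖ := by rw [← e]
            _ ≤ _ := (norm_sub_le _ _).trans (by gcongr; exact norm_sub_le _ _)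
        rw [← two_smul ℂ, norm_smul] at h3
        simp only [Complex.norm_ofNat] at h3
        simp only [hA]
        linarith
      have hc : ∀ i, d i ≤ δ + (2 / δ') * (2 * (A (i + 2) - A i) + 4 * η) := by
        intro i
        have ha1 := ha i
        have ha2 := ha (i + 1)
        rcases lt_or_ge (d i) δ with hlt | hge
        · have : 0 ≤ (2 / δ') * (2 * (A (i + 2) - A i) + 4 * η) := by
            apply mul_nonneg (by positivity)
            have e : A (i + 1 + 1) = A (i + 2) := rfl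
            rw [e] at ha2
            linarith
          linarith
        · have h1 := hU (max (A (i + 1)) (A (i + 2))) (S.F (s (i + 1)) u) (S.F (s (i + 2)) u)
            (max_le (hA1 (i + 1)) (hA1 (i + 2))) (le_max_left _ _) (le_max_right _ _)
            (by rw [norm_sub_rev]; exact hge)
          have h2 : max (A (i + 1)) (A (i + 2)) ≤ A (i + 2) + η :=
            max_le ha2 (by linarith)
          have h3 := hb i
          have h4 : δ' ≤ 2 * (A (i + 2) - A i) + 4 * η := by linarith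
          have h5 : 2 ≤ (2 / δ') * (2 * (A (i + 2) - A i) + 4 * η) := by
            calc (2 : ℝ) = (2 / δ') * δ' := by field_simp
              _ ≤ _ := by gcongr
          linarith [hd2 i]
      have hdd : ∀ i, ‖u - S.F (s (i + 2)) u‖ ≤ β + η + β * d i := by
        intro i
        have h1 := (hn1 (s (i + 1)) (s (i + 2)) (hsn1 (i + 1) (i + 2) (by omega)) u).2
        have h2 : ‖u - (S.F (s (i + 2)) u - S.F (s (i + 1)) u)‖ ≤ 1 + d i :=
          (norm_sub_le _ _).trans (by gcongr)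
        calc _ ≤ β * ‖u - (S.F (s (i + 2)) u - S.F (s (i + 1)) u)‖ + η * ‖u‖ := h1
          _ ≤ β * (1 + d i) + η * 1 := by gcongr
          _ = _ := by ring
      rw [hTapply, norm_smul, hnK]
      have hsum : ‖∑ i ∈ range K, (u - S.F (s (i + 2)) u)‖ ≤
          K * (β + η + β * δ) + β * (2 / δ') * (4 + K * (4 * η)) := by
        calc _ ≤ ∑ i ∈ range K, ‖u - S.F (s (i + 2)) u‖ := norm_sum_le _ _
          _ ≤ ∑ i ∈ range K, (β + η + β * (δ + (2 / δ') * (2 * (A (i + 2) - A i) + 4 * η))) := by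
              refine sum_le_sum (fun i _ => (hdd i).trans ?_)
              have := hc i
              gcongr
          _ = K * (β + η + β * δ) +
              β * (2 / δ') * (2 * ∑ i ∈ range K, (A (i + 2) - A i) + K * (4 * η)) := by
              have e : ∀ i, β + η + β * (δ + (2 / δ') * (2 * (A (i + 2) - A i) + 4 * η)) =
                (β + η + β * δ + β * (2 / δ') * (4 * η)) +
                  β * (2 / δ') * 2 * (A (i + 2) - A i) := by intro i; ring
              simp only [e]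
              rw [sum_add_distrib, ← mul_sum]
              simp only [sum_const, card_range, nsmul_eq_mul]
              ring
          _ ≤ _ := by
              have := sum_telescope A hA0 hA1 K
              have h2 : 0 ≤ β * (2 / δ') := by positivity
              nlinarith
      calc (1 / K : ℝ) * ‖∑ i ∈ range K, (u - S.F (s (i + 2)) u)‖
          ≤ (1 / K) * (K * (β + η + β * δ) + β * (2 / δ') * (4 + K * (4 * η))) := by gcongr
        _ = β + η + β * δ + 8 * β / (K * δ') + 8 * β * η / δ' := by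
            field_simp; ring
        _ ≤ β + γ + γ + γ + γ := by
            have h1 : β * δ ≤ γ := by
              rw [hδ, mul_div_assoc', div_le_iff₀ hβ1]
              nlinarith
            linarith
        _ = M := by rw [hγ]; ring
    intro u
    rcases eq_or_ne u 0 with rfl | hu
    · simp
    · have hun : 0 < ‖u‖ := norm_pos_iff.2 hu
      have hcn : ‖((‖u‖⁻¹ : ℝ) : ℂ)‖ = ‖u‖⁻¹ := by
        rw [Complex.norm_real, Real.norm_eq_abs, abs_of_pos (by positivity)]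
      have h1 := key (((‖u‖⁻¹ : ℝ) : ℂ) • u) (by
        rw [norm_smul, hcn, inv_mul_cancel₀ hun.ne'])
      rw [map_smul, ← smul_sub, norm_smul, hcn, inv_mul_le_iff₀ hun] at h1
      linarith
  · intro z hz u
    have e1 : z (u - T u) = ((1 / K : ℝ) : ℂ) * ∑ i ∈ range K, z (u - S.F (s (i + 2)) u) := by
      rw [hTapply u, z.map_smul, map_sum, smul_eq_mul]
    rw [e1, norm_mul, hnK]
    have h1 : ‖∑ i ∈ range K, z (u - S.F (s (i + 2)) u)‖ ≤ K * (ε * ‖u‖) := by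
      calc _ ≤ ∑ i ∈ range K, ‖z (u - S.F (s (i + 2)) u)‖ := norm_sum_le _ _
        _ ≤ ∑ i ∈ range K, ε * ‖u‖ := sum_le_sum (fun i _ => hNs z hz (s (i + 2)) (hsNs (i + 2)) u)
        _ = _ := by simp
    calc (1 / K : ℝ) * ‖∑ i ∈ range K, z (u - S.F (s (i + 2)) u)‖
        ≤ (1 / K) * (K * (ε * ‖u‖)) := by gcongr
      _ = ε * ‖u‖ := by field_simp

end Pool.Agent.Work.MP_d7cff0_an
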