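import Mathlib

/-!
# The dual compact approximation constant and the Hardy space: definitions

`AddCircle T` with its normalised Haar measure is the circle of length `T` (for `T = 2π` this is
the unit circle, parametrised by the angle, with Lebesgue measure of total mass one), and
`fourierCoeff f n` is the `n`-th Fourier coefficient `∫ f(t) exp(-2π i n t / T) dt`.
-/

namespace Pool.Agent.Work.MP_d7cff0_an

open MeasureTheory AddCircle
open scoped ENNReal

/-- `E` has the dual compact approximation property with constant `M`: for every `ε > 0` and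
every finite set `G` of functionals there is a compact operator `S` with `‖I - S‖ ≤ M` and
`‖z - S^* z‖ < ε` for all `z ∈ G` (here `S^* z = z ∘ S`). -/
def DCAPWith (E : Type*) [NormedAddCommGroup E] [NormedSpace ℂ E] (M : ℝ) : Prop :=
  ∀ ε : ℝ, 0 < ε → ∀ G : Finset (StrongDual ℂ E), ∃ S : E →L[ℂ] E, IsCompactOperator S ∧
    ‖ContinuousLinearMap.id ℂ E - S‖ ≤ M ∧ ∀ z ∈ G, ‖z - z.comp S‖ < ε

/-- The dual compact approximation constant `M^*(E)`: the infimum of all `M ∈ (0,∞)` for which
`E` has the dual compact approximation property with constant `M`. -/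
noncomputable def Mstar (E : Type*) [NormedAddCommGroup E] [NormedSpace ℂ E] : ℝ :=
  sInf {M : ℝ | 0 < M ∧ DCAPWith E M}

/-- The set of all `f ∈ L^p` of the circle whose Fourier coefficients of negative index
vanish. -/
def hardySet (T : ℝ) [Fact (0 < T)] (p : ℝ≥0∞) : Set (Lp ℂ p (haarAddCircle (T := T))) :=
  {f | ∀ n : ℤ, n < 0 → fourierCoeff f n = 0}

lemma zero_mem_hardySet (T : ℝ) [Fact (0 < T)] (p : ℝ≥0∞) : 0 ∈ hardySet T p := by
  intro n _
  rw [fourierCoeff_congr_ae (Lp.coeFn_zero ℂ p (haarAddCircle (T := T)))]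
  unfold fourierCoeff
  simp

lemma add_mem_hardySet (T : ℝ) [Fact (0 < T)] (p : ℝ≥0∞) [hp : Fact (1 ≤ p)]
    {f g : Lp ℂ p (haarAddCircle (T := T))} (hf : f ∈ hardySet T p) (hg : g ∈ hardySet T p) :
    f + g ∈ hardySet T p := by
  have hint : ∀ u : Lp ℂ p (haarAddCircle (T := T)), Integrable u haarAddCircle := fun u =>
    memLp_one_iff_integrable.1 ((Lp.memLp u).mono_exponent hp.out)
  intro n hn
  rw [fourierCoeff_congr_ae (Lp.coeFn_add f g), fourierCoeff.add (hint f) (hint g)]
  show fourierCoeff f n + fourierCoeff g n = 0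
  rw [hf n hn, hg n hn, add_zero]

lemma smul_mem_hardySet (T : ℝ) [Fact (0 < T)] (p : ℝ≥0∞) (c : ℂ)
    {f : Lp ℂ p (haarAddCircle (T := T))} (hf : f ∈ hardySet T p) : c • f ∈ hardySet T p := by
  intro n hn
  rw [fourierCoeff_congr_ae (Lp.coeFn_smul c f), fourierCoeff.const_smul]
  show c * fourierCoeff f n = 0
  rw [hf n hn, mul_zero]

/-- The Hardy space `H^p`: the space of all `f ∈ L^p` of the circle whose Fourier coefficients
of negative index vanish, with the `L^p` norm. -/
noncomputable def hardy (T : ℝ) [Fact (0 < T)] (p : ℝ≥0∞) [Fact (1 ≤ p)] :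
    Submodule ℂ (Lp ℂ p (haarAddCircle (T := T))) where
  carrier := hardySet T p
  zero_mem' := zero_mem_hardySet T p
  add_mem' := add_mem_hardySet T p
  smul_mem' := smul_mem_hardySet T p

/-- The `n`-th Fourier (Taylor) coefficient `f^(n)` of `f ∈ H^p`, `n ≥ 0`. -/
noncomputable def hardyCoeff (T : ℝ) [Fact (0 < T)] (p : ℝ≥0∞) [Fact (1 ≤ p)] (n : ℕ)
    (f : hardy T p) : ℂ :=
  fourierCoeff (f : Lp ℂ p (haarAddCircle (T := T))) n

/-- `β` is the norm of the backward shift on `E` (with respect to the coefficients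
`a 0 f, a 1 f, a 2 f, …` of `f ∈ E`): there is a bounded operator `B` on `E` which shifts the
coefficients, `a n (B f) = a (n+1) f` for all `n`, and `‖B‖ = β`. -/
def IsBackwardShiftNorm {E : Type*} [NormedAddCommGroup E] [NormedSpace ℂ E] (a : ℕ → E → ℂ)
    (β : ℝ) : Prop :=
  ∃ B : E →L[ℂ] E, (∀ f n, a n (B f) = a (n + 1) f) ∧ ‖B‖ = β

end Pool.Agent.Work.MP_d7cff0_an
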