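import Mathlib

/-!
# Fourier coefficients, translations and Fejer operators on `L^p` of the circle
-/

namespace Pool.Agent.Work.MP_d7cff0_an

open MeasureTheory AddCircle Filter Topology Finset
open scoped ENNReal

variable {T : ℝ} [hT : Fact (0 < T)] {p : ℝ≥0∞} [hp : Fact (1 ≤ p)]

/-- `L^p` of the circle. -/
abbrev LpC (T : ℝ) [Fact (0 < T)] (p : ℝ≥0∞) : Type :=
  Lp ℂ p (haarAddCircle (T := T))

/-! ### Fourier coefficients as functionals -/

omit hp in
lemma LpC.integrable (hp : 1 ≤ p) (f : LpC T p) : Integrable f haarAddCircle :=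
  memLp_one_iff_integrable.1 ((Lp.memLp f).mono_exponent hp)

lemma norm_fourierCoeff_le (f : LpC T p) (n : ℤ) : ‖fourierCoeff f n‖ ≤ ‖f‖ := by
  have h1 : ‖fourierCoeff f n‖ ≤ ∫ t, ‖f t‖ ∂(haarAddCircle (T := T)) := by
    unfold fourierCoeff
    refine (norm_integral_le_integral_norm _).trans (le_of_eq ?_)
    refine integral_congr_ae (Eventually.of_forall fun t => ?_)
    simp
  have h2 : ∫ t, ‖f t‖ ∂(haarAddCircle (T := T)) = (eLpNorm f 1 haarAddCircle).toReal := by
    rw [eLpNorm_one_eq_lintegral_enorm]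
    rw [integral_norm_eq_lintegral_enorm (Lp.aestronglyMeasurable f)]
  rw [h2] at h1
  refine h1.trans ?_
  rw [Lp.norm_def]
  exact ENNReal.toReal_mono (Lp.eLpNorm_ne_top f)
    (eLpNorm_le_eLpNorm_of_exponent_le hp.out (Lp.aestronglyMeasurable f))

/-- The `n`-th Fourier coefficient as a continuous functional on `L^p`. -/
noncomputable def coef (n : ℤ) : LpC T p →L[ℂ] ℂ :=
  LinearMap.mkContinuous
    { toFun := fun f => fourierCoeff f n
      map_add' := fun f g => by
        rw [fourierCoeff_congr_ae (Lp.coeFn_add f g),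
          fourierCoeff.add (LpC.integrable hp.out f) (LpC.integrable hp.out g)]
        rfl
      map_smul' := fun c f => by
        rw [fourierCoeff_congr_ae (Lp.coeFn_smul c f), fourierCoeff.const_smul]
        rfl }
    1 (fun f => by simpa using norm_fourierCoeff_le f n)

lemma coef_apply (n : ℤ) (f : LpC T p) : coef n f = fourierCoeff f n := rfl

lemma norm_coef_le (n : ℤ) (f : LpC T p) : ‖coef n f‖ ≤ ‖f‖ := norm_fourierCoeff_le f n

lemma coef_fourierLp (n m : ℤ) : coef n (fourierLp (T := T) p m) = if n = m then 1 else 0 := by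
  rw [coef_apply, fourierCoeff_congr_ae (coeFn_fourierLp p m), fourierCoeff_fourier]
  by_cases h : n = m
  · subst h; simp
  · simp [h]

lemma norm_fourierLp (m : ℤ) : ‖fourierLp (T := T) p m‖ = 1 := by
  have hp0 : p ≠ 0 := (zero_lt_one.trans_le hp.out).ne'
  rw [Lp.norm_def, eLpNorm_congr_ae (coeFn_fourierLp p m)]
  have : eLpNorm (fourier (T := T) m) p haarAddCircle =
      eLpNorm (fun _ : AddCircle T => (1 : ℝ)) p haarAddCircle := by
    refine eLpNorm_congr_norm_ae (Eventually.of_forall fun t => ?_)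
    simp
  rw [this, eLpNorm_const _ hp0 (IsProbabilityMeasure.ne_zero _)]
  simp

/-! ### Translations -/

/-- Translation by `s`. -/
noncomputable def tr (s : AddCircle T) : LpC T p →ₗᵢ[ℂ] LpC T p :=
  Lp.compMeasurePreservingₗᵢ ℂ (fun x => x + s) (measurePreserving_add_right _ s)

lemma tr_apply_ae (s : AddCircle T) (f : LpC T p) :
    tr s f =ᵐ[haarAddCircle] fun x => f (x + s) :=
  Lp.coeFn_compMeasurePreserving f (measurePreserving_add_right _ s)

omit hT in
lemma fourier_add_arg (m : ℤ) (x s : AddCircle T) :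
    fourier m (x + s) = fourier m s * fourier m x := by
  simp only [fourier_apply]
  rw [zsmul_add, toCircle_add, mul_comm]
  push_cast; rfl

lemma tr_fourierLp (s : AddCircle T) (m : ℤ) :
    tr s (fourierLp p m) = fourier m s • fourierLp (T := T) p m := by
  apply Lp.ext
  refine (tr_apply_ae s _).trans ?_
  refine EventuallyEq.trans ?_ (Lp.coeFn_smul _ _).symm
  have h1 := coeFn_fourierLp (T := T) p m
  have h2 := (measurePreserving_add_right (haarAddCircle (T := T)) s).quasiMeasurePreserving.ae_eq h1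
  filter_upwards [h1, h2] with x hx hx2
  simp only [Function.comp] at hx2
  rw [hx2, Pi.smul_apply, hx, fourier_add_arg, smul_eq_mul]

/-! ### Fejer operators -/

/-- The Fejer multiplier `c_N(m) = #{(j,k) ∈ [0,N)^2 : j - k = m} / N`. -/
noncomputable def cN (N : ℕ) (m : ℤ) : ℝ :=
  (1 / N : ℝ) * ∑ j ∈ range N, ∑ k ∈ range N, if (j : ℤ) - k = m then (1 : ℝ) else 0

/-- The Fejer operator. -/
noncomputable def Fej (N : ℕ) : LpC T p →L[ℂ] LpC T p :=
  ((1 / N : ℝ) : ℂ) • ∑ j ∈ range N, ∑ k ∈ range N,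
    (coef ((j : ℤ) - k)).smulRight (fourierLp p ((j : ℤ) - k))

lemma Fej_apply (N : ℕ) (f : LpC T p) : Fej N f = ((1 / N : ℝ) : ℂ) •
    ∑ j ∈ range N, ∑ k ∈ range N, (coef ((j : ℤ) - k) f) • fourierLp p ((j : ℤ) - k) := by
  simp [Fej]

lemma coef_Fej (N : ℕ) (f : LpC T p) (m : ℤ) : coef m (Fej N f) = cN N m * coef m f := by
  rw [Fej_apply]
  simp only [map_smul, map_sum, coef_fourierLp, smul_eq_mul, cN]
  push_cast
  rw [mul_assoc, Finset.sum_mul]
  congr 1
  refine sum_congr rfl (fun j _ => ?_)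
  rw [Finset.sum_mul]
  refine sum_congr rfl (fun k _ => ?_)
  by_cases h : (j : ℤ) - k = m
  · simp [h]
  · have h' : ¬ m = (j : ℤ) - k := fun h2 => h h2.symm
    simp [h, h']

lemma cN_inner (N k : ℕ) (m : ℤ) :
    (∑ j ∈ range N, if (j : ℤ) - k = m then (1 : ℝ) else 0) =
      if 0 ≤ (k : ℤ) + m ∧ (k : ℤ) + m < N then 1 else 0 := by
  split_ifs with h
  · have hj : ((k : ℤ) + m).toNat ∈ range N := by
      rw [mem_range]; omega
    rw [sum_eq_single_of_mem _ hj]
    · rw [if_pos]; omega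
    · intro b _ hb
      rw [if_neg]; omega
  · refine sum_eq_zero (fun j hj => ?_)
    rw [mem_range] at hj
    rw [if_neg]; omega

lemma cN_eq (N : ℕ) (m : ℤ) : cN N m = (1 / N : ℝ) * ∑ k ∈ range N,
    if 0 ≤ (k : ℤ) + m ∧ (k : ℤ) + m < N then (1 : ℝ) else 0 := by
  unfold cN
  rw [sum_comm]
  simp only [cN_inner]

lemma cN_nonneg (N : ℕ) (m : ℤ) : 0 ≤ cN N m := by
  unfold cN
  refine mul_nonneg (by positivity) (sum_nonneg fun j _ => sum_nonneg fun k _ => ?_)
  split_ifs <;> norm_num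

lemma cN_le_one (N : ℕ) (m : ℤ) : cN N m ≤ 1 := by
  rcases Nat.eq_zero_or_pos N with rfl | hN
  · simp [cN]
  rw [cN_eq]
  have h : ∑ k ∈ range N, (if 0 ≤ (k : ℤ) + m ∧ (k : ℤ) + m < N then (1 : ℝ) else 0) ≤ N := by
    calc _ ≤ ∑ k ∈ range N, (1 : ℝ) := by
          refine sum_le_sum fun k _ => ?_
          split_ifs <;> norm_num
      _ = N := by simp
  calc _ ≤ (1 / N : ℝ) * N := by gcongr
    _ = 1 := by field_simp

lemma cN_eq_zero {N : ℕ} {m : ℤ} (h : (N : ℤ) ≤ |m|) : cN N m = 0 := by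
  rw [cN_eq]
  have : ∑ k ∈ range N, (if 0 ≤ (k : ℤ) + m ∧ (k : ℤ) + m < N then (1 : ℝ) else 0) = 0 := by
    refine sum_eq_zero (fun k hk => ?_)
    rw [mem_range] at hk
    rw [if_neg]
    rcases abs_cases m with h' | h' <;> omega
  rw [this, mul_zero]

lemma one_sub_cN_le {N : ℕ} (hN : 0 < N) (m : ℤ) : 1 - cN N m ≤ |(m : ℝ)| / N := by
  rw [cN_eq]
  have hNR : (0 : ℝ) < N := by exact_mod_cast hN
  have h1 : (N : ℝ) - |(m : ℝ)| ≤
      ∑ k ∈ range N, (if 0 ≤ (k : ℤ) + m ∧ (k : ℤ) + m < N then (1 : ℝ) else 0) := by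
    rw [sum_ite, sum_const_zero, add_zero, sum_const, nsmul_eq_mul, mul_one]
    have h2 : N - m.natAbs ≤
        ((range N).filter (fun x : ℕ => 0 ≤ (x : ℤ) + m ∧ (x : ℤ) + m < N)).card := by
      rcases le_total 0 m with hm | hm
      · have : range (N - m.natAbs) ⊆ (range N).filter (fun x : ℕ => 0 ≤ (x : ℤ) + m ∧ (x : ℤ) + m < N) := by
          intro x hx
          rw [mem_range] at hx
          rw [mem_filter, mem_range]
          omega
        simpa using card_le_card this
      · have : Ico m.natAbs N ⊆ (range N).filter (fun x : ℕ => 0 ≤ (x : ℤ) + m ∧ (x : ℤ) + m < N) := by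
          intro x hx
          rw [mem_Ico] at hx
          rw [mem_filter, mem_range]
          omega
        simpa using card_le_card this
    have h3 : ((N : ℤ) : ℝ) - ((m.natAbs : ℤ) : ℝ) ≤
        (((range N).filter (fun x : ℕ => 0 ≤ (x : ℤ) + m ∧ (x : ℤ) + m < N)).card : ℝ) := by
      have : (N : ℤ) - (m.natAbs : ℤ) ≤
        ((((range N).filter (fun x : ℕ => 0 ≤ (x : ℤ) + m ∧ (x : ℤ) + m < N)).card : ℕ) : ℤ) := by omega
      exact_mod_cast this
    have h4 : ((m.natAbs : ℤ) : ℝ) = |(m : ℝ)| := by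
      rw [Int.natCast_natAbs]; push_cast; rfl
    rw [h4] at h3
    exact_mod_cast h3
  have h5 : (1 / N : ℝ) * (N - |(m : ℝ)|) ≤ (1 / N : ℝ) *
      ∑ k ∈ range N, (if 0 ≤ (k : ℤ) + m ∧ (k : ℤ) + m < N then (1 : ℝ) else 0) := by gcongr
  have h6 : (1 / N : ℝ) * (N - |(m : ℝ)|) = 1 - |(m : ℝ)| / N := by field_simp
  linarith

/-- The Fejer kernel. -/
noncomputable def ker (N : ℕ) (s : AddCircle T) : ℝ :=
  (1 / N : ℝ) * ‖∑ k ∈ range N, fourier (k : ℤ) s‖ ^ 2

omit hT in
lemma ker_nonneg (N : ℕ) (s : AddCircle T) : 0 ≤ ker N s := by unfold ker; positivity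

omit hT in
lemma ker_eq (N : ℕ) (s : AddCircle T) : ((ker N s : ℝ) : ℂ) =
    ((1 / N : ℝ) : ℂ) * ∑ j ∈ range N, ∑ k ∈ range N, fourier ((j : ℤ) - k) s := by
  unfold ker
  rw [Complex.ofReal_mul]
  congr 1
  have : ((‖∑ k ∈ range N, fourier (T := T) (k : ℤ) s‖ ^ 2 : ℝ) : ℂ) =
      (∑ k ∈ range N, fourier (T := T) (k : ℤ) s) *
        (starRingEnd ℂ) (∑ k ∈ range N, fourier (T := T) (k : ℤ) s) := by
    rw [Complex.mul_conj, Complex.normSq_eq_norm_sq]
  rw [this, map_sum, Finset.sum_mul_sum]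
  refine sum_congr rfl fun j _ => sum_congr rfl fun k _ => ?_
  rw [sub_eq_add_neg, fourier_add, fourier_neg]

omit hT in
lemma continuous_ker (N : ℕ) : Continuous (ker (T := T) N) := by
  unfold ker
  fun_prop

lemma integral_fourier (m : ℤ) :
    ∫ s, fourier (T := T) m s ∂haarAddCircle = if m = 0 then 1 else 0 := by
  have := fourierCoeff_fourier (T := T) m
  have h2 := congrFun this 0
  unfold fourierCoeff at h2
  simp only [neg_zero, fourier_zero, one_smul] at h2
  rw [h2]
  by_cases h : m = 0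
  · subst h; simp
  · simp [h]

lemma integrable_cont {E : Type*} [NormedAddCommGroup E] {f : AddCircle T → E}
    (hf : Continuous f) : Integrable f haarAddCircle :=
  hf.integrable_of_hasCompactSupport (HasCompactSupport.of_compactSpace f)

lemma integral_ker_fourier (N : ℕ) (m : ℤ) :
    ∫ s, ((ker N s : ℝ) : ℂ) * fourier (T := T) m s ∂haarAddCircle = cN N m := by
  simp only [ker_eq]
  have h1 : ∀ s : AddCircle T, ((1 / N : ℝ) : ℂ) *
      (∑ j ∈ range N, ∑ k ∈ range N, fourier ((j : ℤ) - k) s) * fourier m s =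
      ((1 / N : ℝ) : ℂ) * ∑ j ∈ range N, ∑ k ∈ range N, fourier ((j : ℤ) - k + m) s := by
    intro s
    rw [mul_assoc, Finset.sum_mul]
    congr 1
    refine sum_congr rfl fun j _ => ?_
    rw [Finset.sum_mul]
    refine sum_congr rfl fun k _ => ?_
    rw [fourier_add]
  simp only [h1]
  have h2 : ∫ s, ∑ j ∈ range N, ∑ k ∈ range N, fourier (T := T) ((j : ℤ) - k + m) s
      ∂haarAddCircle = ∑ j ∈ range N, ∑ k ∈ range N, if (j : ℤ) - k + m = 0 then 1 else 0 := by
    rw [integral_finsetSum]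
    · refine sum_congr rfl fun j _ => ?_
      rw [integral_finsetSum]
      · refine sum_congr rfl fun k _ => integral_fourier _
      · intro k _
        exact integrable_cont (by fun_prop)
    · intro j _
      exact integrable_cont (by fun_prop)
  rw [integral_const_mul, h2]
  unfold cN
  push_cast
  congr 1
  rw [sum_comm]
  refine sum_congr rfl fun j _ => sum_congr rfl fun k _ => ?_
  by_cases h : (j : ℤ) - k = m
  · rw [if_pos h, if_pos (by omega)]; simp
  · rw [if_neg h, if_neg (by omega)]; simp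

lemma integral_ker {N : ℕ} (hN : 0 < N) : ∫ s, ker (T := T) N s ∂haarAddCircle = 1 := by
  have h := integral_ker_fourier (T := T) N 0
  simp only [fourier_zero, mul_one] at h
  rw [integral_complex_ofReal] at h
  have h2 : cN N 0 = 1 := by
    have h3 := one_sub_cN_le hN 0
    have h4 := cN_le_one N 0
    simp at h3
    linarith
  rw [h2] at h
  exact_mod_cast h

/-- The span of the monomials. -/
noncomputable def trig (T : ℝ) [Fact (0 < T)] (p : ℝ≥0∞) [Fact (1 ≤ p)] : Submodule ℂ (LpC T p) :=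
  Submodule.span ℂ (Set.range (fourierLp p))

lemma trig_dense (hp' : p ≠ ⊤) : Dense (trig T p : Set (LpC T p)) := by
  rw [Submodule.dense_iff_topologicalClosure_eq_top]
  exact span_fourierLp_closure_eq_top hp'

lemma tr_continuous {f : LpC T p} (hf : f ∈ trig T p) : Continuous (fun s => tr s f) := by
  refine Submodule.span_induction (p := fun f _ => Continuous (fun s => tr s f)) ?_ ?_ ?_ ?_ hf
  · rintro _ ⟨m, rfl⟩
    simp only [tr_fourierLp]
    exact (map_continuous (fourier m)).smul continuous_const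
  · simp only [map_zero]; exact continuous_const
  · intro x y _ _ hx hy
    simp only [map_add]; exact hx.add hy
  · intro c x _ hx
    simp only [map_smul]; exact hx.const_smul c

lemma integral_tr {f : LpC T p} (hf : f ∈ trig T p) (N : ℕ) :
    ∫ s, ((ker N s : ℝ) : ℂ) • tr s f ∂haarAddCircle = Fej N f := by
  have hint : ∀ g ∈ trig T p, Integrable (fun s => ((ker N s : ℝ) : ℂ) • tr s g)
      (haarAddCircle (T := T)) := fun g hg =>
    integrable_cont ((Complex.continuous_ofReal.comp (continuous_ker N)).smul (tr_continuous hg))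
  refine Submodule.span_induction
    (p := fun f _ => ∫ s, ((ker N s : ℝ) : ℂ) • tr s f ∂haarAddCircle = Fej N f) ?_ ?_ ?_ ?_ hf
  · rintro _ ⟨m, rfl⟩
    simp only [tr_fourierLp, smul_smul]
    rw [integral_smul_const, integral_ker_fourier, Fej_apply]
    simp only [coef_fourierLp, ite_smul, one_smul, zero_smul]
    unfold cN
    push_cast
    rw [mul_smul, Finset.sum_smul]
    congr 1
    refine sum_congr rfl fun j _ => ?_
    rw [Finset.sum_smul]
    refine sum_congr rfl fun k _ => ?_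
    by_cases h : (j : ℤ) - k = m
    · simp [h]
    · simp [h]
  · simp
  · intro x y hx hy h1 h2
    simp only [map_add, smul_add]
    rw [integral_add (hint x hx) (hint y hy), h1, h2]
  · intro c x _ h1
    simp only [map_smul]
    rw [← h1, ← integral_smul]
    congr 1
    funext s
    rw [smul_comm]

lemma norm_Fej_le (hp' : p ≠ ⊤) (N : ℕ) (f : LpC T p) : ‖Fej N f‖ ≤ ‖f‖ := by
  rcases Nat.eq_zero_or_pos N with rfl | hN
  · simp [Fej_apply]
  refine (trig_dense (T := T) hp').induction ?_ ?_ f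
  · intro f hf
    rw [← integral_tr hf N]
    refine (norm_integral_le_integral_norm _).trans ?_
    have : ∀ s, ‖((ker N s : ℝ) : ℂ) • tr s f‖ = ker N s * ‖f‖ := by
      intro s
      rw [norm_smul, LinearIsometry.norm_map, Complex.norm_real, Real.norm_eq_abs,
        abs_of_nonneg (ker_nonneg N s)]
    simp only [this]
    rw [integral_mul_const, integral_ker hN, one_mul]
  · exact isClosed_le ((Fej N).continuous.norm) continuous_norm

lemma Fej_fourierLp (N : ℕ) (m : ℤ) :
    Fej N (fourierLp (T := T) p m) = ((cN N m : ℝ) : ℂ) • fourierLp p m := by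
  rw [Fej_apply]
  simp only [coef_fourierLp, ite_smul, one_smul, zero_smul]
  unfold cN
  push_cast
  rw [mul_smul, Finset.sum_smul]
  congr 1
  refine sum_congr rfl fun j _ => ?_
  rw [Finset.sum_smul]
  refine sum_congr rfl fun k _ => ?_
  by_cases h : (j : ℤ) - k = m
  · simp [h]
  · simp [h]

lemma tendsto_cN (m : ℤ) : Tendsto (fun N => cN N m) atTop (𝓝 1) := by
  have h1 : Tendsto (fun N : ℕ => 1 - |(m : ℝ)| / N) atTop (𝓝 (1 - 0)) :=
    tendsto_const_nhds.sub (tendsto_const_nhds.div_atTop tendsto_natCast_atTop_atTop)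
  rw [sub_zero] at h1
  refine tendsto_of_tendsto_of_tendsto_of_le_of_le' h1 tendsto_const_nhds ?_
    (Eventually.of_forall fun N => cN_le_one N m)
  filter_upwards [eventually_gt_atTop 0] with N hN
  linarith [one_sub_cN_le hN m]

lemma tendsto_Fej (hp' : p ≠ ⊤) (f : LpC T p) : Tendsto (fun N => Fej N f) atTop (𝓝 f) := by
  -- first on trigonometric polynomials
  have htrig : ∀ g ∈ trig T p, Tendsto (fun N => Fej N g) atTop (𝓝 g) := by
    intro g hg
    refine Submodule.span_induction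
      (p := fun g _ => Tendsto (fun N => Fej N g) atTop (𝓝 g)) ?_ ?_ ?_ ?_ hg
    · rintro _ ⟨m, rfl⟩
      simp only [Fej_fourierLp]
      have h := ((Complex.continuous_ofReal.tendsto 1).comp (tendsto_cN m)).smul_const
        (fourierLp (T := T) p m)
      simpa using h
    · simp
    · intro x y _ _ hx hy
      simpa using hx.add hy
    · intro c x _ hx
      simpa using hx.const_smul c
  rw [Metric.tendsto_atTop]
  intro ε hε
  obtain ⟨g, hg, hfg⟩ := Metric.mem_closure_iff.1 ((trig_dense (T := T) hp') f) (ε / 3)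
    (by positivity)
  obtain ⟨N₀, hN₀⟩ := (Metric.tendsto_atTop.1 (htrig g hg)) (ε / 3) (by positivity)
  refine ⟨N₀, fun N hN => ?_⟩
  have h1 := hN₀ N hN
  rw [dist_eq_norm] at h1 hfg ⊢
  have h2 : ‖Fej N (f - g)‖ ≤ ‖f - g‖ := norm_Fej_le hp' N _
  have e : Fej N f - f = Fej N (f - g) + (Fej N g - g) - (f - g) := by
    rw [map_sub]; abel
  rw [e]
  calc _ ≤ ‖Fej N (f - g)‖ + ‖Fej N g - g‖ + ‖f - g‖ :=
        (norm_sub_le _ _).trans (by gcongr; exact norm_add_le _ _)
    _ < ε := by linarith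

lemma Fej_compact (N : ℕ) : IsCompactOperator (Fej (T := T) (p := p) N) := by
  have h1 : ∀ m : ℤ, IsCompactOperator
      ((coef m).smulRight (fourierLp (T := T) p m) : LpC T p →L[ℂ] LpC T p) := by
    intro m
    have h2 : IsCompactOperator ((_root_.id : ℂ → ℂ) ∘ (coef (T := T) (p := p) m)) :=
      isCompactOperator_id.comp_clm (coef m)
    have h3 := h2.clm_comp (ContinuousLinearMap.toSpanSingleton ℂ (fourierLp (T := T) p m))
    exact h3
  have hsum : ∀ (s : Finset ℕ) (g : ℕ → (LpC T p →L[ℂ] LpC T p)),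
      (∀ i, IsCompactOperator (g i)) → IsCompactOperator (∑ i ∈ s, g i : LpC T p →L[ℂ] LpC T p) := by
    intro s g hg
    induction s using Finset.induction_on with
    | empty => simpa using isCompactOperator_zero
    | insert a s ha ih =>
      rw [sum_insert ha]
      exact (hg a).add ih
  exact (hsum _ _ fun j => hsum _ _ fun k => h1 _).smul (((1 / N : ℝ) : ℂ))

/-- Asymptotic commutation. -/
lemma norm_Fej_sub_le {N' : ℕ} (hN' : 0 < N') (N : ℕ) (f : LpC T p) :
    ‖Fej N (Fej N' f - f)‖ ≤ (N : ℝ) ^ 2 / N' * ‖f‖ := by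
  rcases Nat.eq_zero_or_pos N with rfl | hN
  · simp [Fej_apply]
  have hNR : (0 : ℝ) < N := by exact_mod_cast hN
  have hN'R : (0 : ℝ) < N' := by exact_mod_cast hN'
  rw [Fej_apply, norm_smul, Complex.norm_real, Real.norm_eq_abs, abs_of_nonneg (by positivity)]
  have h1 : ∀ j ∈ range N, ∀ k ∈ range N,
      ‖(coef ((j : ℤ) - k) (Fej N' f - f)) • fourierLp (T := T) p ((j : ℤ) - k)‖ ≤
        (N : ℝ) / N' * ‖f‖ := by
    intro j hj k hk
    rw [norm_smul, norm_fourierLp, mul_one, map_sub, coef_Fej]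
    have e : ((cN N' ((j : ℤ) - k) : ℝ) : ℂ) * coef ((j : ℤ) - k) f - coef ((j : ℤ) - k) f =
      (((cN N' ((j : ℤ) - k) - 1 : ℝ)) : ℂ) * coef ((j : ℤ) - k) f := by push_cast; ring
    rw [e, norm_mul, Complex.norm_real, Real.norm_eq_abs, abs_sub_comm,
      abs_of_nonneg (by linarith [cN_le_one N' ((j : ℤ) - k)])]
    have h2 := one_sub_cN_le hN' ((j : ℤ) - k)
    have h3 : |(((j : ℤ) - k : ℤ) : ℝ)| ≤ N := by
      rw [mem_range] at hj hk
      have : |((j : ℤ) - k : ℤ)| ≤ N := by rw [abs_le]; constructor <;> omega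
      exact_mod_cast this
    have h4 : |(((j : ℤ) - k : ℤ) : ℝ)| / N' ≤ (N : ℝ) / N' := by gcongr
    have h5 := norm_coef_le ((j : ℤ) - k) f
    exact mul_le_mul (h2.trans h4) h5 (norm_nonneg _) (by positivity)
  have h2 : ‖∑ j ∈ range N, ∑ k ∈ range N,
      (coef ((j : ℤ) - k) (Fej N' f - f)) • fourierLp (T := T) p ((j : ℤ) - k)‖ ≤
      N * (N * ((N : ℝ) / N' * ‖f‖)) := by
    calc _ ≤ ∑ j ∈ range N, ∑ k ∈ range N, ((N : ℝ) / N' * ‖f‖) := by
          refine (norm_sum_le _ _).trans (sum_le_sum fun j hj => ?_)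
          exact (norm_sum_le _ _).trans (sum_le_sum fun k hk => h1 j hj k hk)
      _ = _ := by simp
  calc _ ≤ (1 / N : ℝ) * (N * (N * ((N : ℝ) / N' * ‖f‖))) := (by gcongr)
    _ = _ := by field_simp

end Pool.Agent.Work.MP_d7cff0_an
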