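import Mathlib
import Pool.Agent.Work.MP_d7cff0_an.Abstract

/-!
# Uniform convexity of complex `L^p`, `1 < p < ∞`
-/

namespace Pool.Agent.Work.MP_d7cff0_an

open MeasureTheory Filter Topology

/-- The convexity gap of `|.|^q`. -/
noncomputable def gap (q : ℝ) (s t : ℂ) : ℝ := (‖s‖ ^ q + ‖t‖ ^ q) / 2 - ‖(1 / 2 : ℝ) • (s + t)‖ ^ q

lemma gap_nonneg_aux {q : ℝ} (hq : 1 < q) (s t : ℂ) :
    ((‖s‖ + ‖t‖) / 2) ^ q ≤ (‖s‖ ^ q + ‖t‖ ^ q) / 2 := by
  have h := (convexOn_rpow hq.le).2 (show ‖s‖ ∈ Set.Ici (0:ℝ) from norm_nonneg s)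
    (show ‖t‖ ∈ Set.Ici (0:ℝ) from norm_nonneg t)
    (show (0:ℝ) ≤ 1 / 2 by norm_num) (show (0:ℝ) ≤ 1 / 2 by norm_num) (by norm_num)
  simp only [smul_eq_mul] at h
  calc ((‖s‖ + ‖t‖) / 2) ^ q = (1 / 2 * ‖s‖ + 1 / 2 * ‖t‖) ^ q := by congr 1; ring
    _ ≤ _ := h
    _ = _ := by ring

lemma norm_half_le (s t : ℂ) : ‖(1 / 2 : ℝ) • (s + t)‖ ≤ (‖s‖ + ‖t‖) / 2 := by
  rw [norm_smul, Real.norm_eq_abs, abs_of_pos (by norm_num)]
  linarith [norm_add_le s t]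

lemma gap_nonneg {q : ℝ} (hq : 1 < q) (s t : ℂ) : 0 ≤ gap q s t := by
  unfold gap
  have h1 := gap_nonneg_aux hq s t
  have h2 : ‖(1 / 2 : ℝ) • (s + t)‖ ^ q ≤ ((‖s‖ + ‖t‖) / 2) ^ q :=
    Real.rpow_le_rpow (norm_nonneg _) (norm_half_le s t) (by linarith)
  linarith

lemma gap_pos {q : ℝ} (hq : 1 < q) {s t : ℂ} (hst : s ≠ t) : 0 < gap q s t := by
  unfold gap
  by_cases hn : ‖s‖ = ‖t‖
  · have h1 := (norm_midpoint_lt_iff hn).2 hst
    have h2 : ‖(1 / 2 : ℝ) • (s + t)‖ ^ q < ‖s‖ ^ q :=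
      Real.rpow_lt_rpow (norm_nonneg _) h1 (by linarith)
    rw [← hn]
    linarith
  · have h := (strictConvexOn_rpow hq).2 (show ‖s‖ ∈ Set.Ici (0:ℝ) from norm_nonneg s)
      (show ‖t‖ ∈ Set.Ici (0:ℝ) from norm_nonneg t) hn
      (show (0:ℝ) < 1 / 2 by norm_num) (show (0:ℝ) < 1 / 2 by norm_num) (by norm_num)
    simp only [smul_eq_mul] at h
    have e : (1 / 2 * ‖s‖ + 1 / 2 * ‖t‖) = (‖s‖ + ‖t‖) / 2 := by ring
    rw [e] at h
    have h2 : ‖(1 / 2 : ℝ) • (s + t)‖ ^ q ≤ ((‖s‖ + ‖t‖) / 2) ^ q :=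
      Real.rpow_le_rpow (norm_nonneg _) (norm_half_le s t) (by linarith)
    linarith

lemma gap_smul {q : ℝ} {r : ℝ} (hr : 0 ≤ r) (s t : ℂ) :
    gap q ((r : ℂ) * s) ((r : ℂ) * t) = r ^ q * gap q s t := by
  unfold gap
  have h1 : ∀ z : ℂ, ‖(r : ℂ) * z‖ ^ q = r ^ q * ‖z‖ ^ q := by
    intro z
    rw [norm_mul, Complex.norm_real, Real.norm_eq_abs, abs_of_nonneg hr,
      Real.mul_rpow hr (norm_nonneg _)]
  have h2 : (1 / 2 : ℝ) • ((r : ℂ) * s + (r : ℂ) * t) = (r : ℂ) * ((1 / 2 : ℝ) • (s + t)) := by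
    simp only [Complex.real_smul]; ring
  rw [h2, h1, h1, h1]
  ring

lemma continuous_gap {q : ℝ} (hq : 1 < q) : Continuous (fun z : ℂ × ℂ => gap q z.1 z.2) := by
  unfold gap
  have hq0 : 0 ≤ q := by linarith
  refine Continuous.sub (Continuous.div_const (Continuous.add ?_ ?_) _) ?_
  · exact (continuous_fst.norm).rpow_const (fun _ => Or.inr hq0)
  · exact (continuous_snd.norm).rpow_const (fun _ => Or.inr hq0)
  · exact ((continuous_fst.add continuous_snd).const_smul (1 / 2 : ℝ)).norm.rpow_const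
      (fun _ => Or.inr hq0)

/-- The pointwise inequality behind uniform convexity. -/
lemma pointwise_uc {q : ℝ} (hq : 1 < q) {η : ℝ} (hη : 0 < η) : ∃ C : ℝ, 0 < C ∧ ∀ s t : ℂ,
    ‖s - t‖ ^ q ≤ η * (‖s‖ ^ q + ‖t‖ ^ q) + C * gap q s t := by
  have hq0 : 0 ≤ q := by linarith
  have hqpos : 0 < q := by linarith
  let K : Set (ℂ × ℂ) := {z | ‖z‖ = 1 ∧ η * (‖z.1‖ ^ q + ‖z.2‖ ^ q) ≤ ‖z.1 - z.2‖ ^ q}
  have hKc : IsCompact K := by
    refine (isCompact_sphere (0 : ℂ × ℂ) 1).of_isClosed_subset ?_ ?_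
    · have hKe : K = {z | ‖z‖ = 1} ∩ {z | η * (‖z.1‖ ^ q + ‖z.2‖ ^ q) ≤ ‖z.1 - z.2‖ ^ q} := rfl
      rw [hKe]
      refine (isClosed_eq continuous_norm continuous_const).inter (isClosed_le ?_ ?_)
      · refine continuous_const.mul (Continuous.add ?_ ?_)
        · exact (continuous_fst.norm).rpow_const (fun _ => Or.inr hq0)
        · exact (continuous_snd.norm).rpow_const (fun _ => Or.inr hq0)
      · exact ((continuous_fst.sub continuous_snd).norm).rpow_const (fun _ => Or.inr hq0)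
    · intro z hz
      simpa using hz.1
  have hpos : ∀ z ∈ K, 0 < gap q z.1 z.2 := by
    rintro ⟨s, t⟩ ⟨hn, hle⟩
    refine gap_pos hq ?_
    intro hst
    simp only at hst
    subst hst
    simp only [sub_self, norm_zero, Real.zero_rpow hqpos.ne'] at hle
    have hs : ‖s‖ ^ q ≤ 0 := by nlinarith
    have hs0 : ‖s‖ ^ q = 0 := le_antisymm hs (by positivity)
    rw [Real.rpow_eq_zero (norm_nonneg _) hqpos.ne'] at hs0
    simp only [Prod.norm_mk, hs0, max_self] at hn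
    norm_num at hn
  obtain ⟨γ, hγ, hγle⟩ : ∃ γ : ℝ, 0 < γ ∧ ∀ z ∈ K, γ ≤ gap q z.1 z.2 := by
    rcases K.eq_empty_or_nonempty with hE | hE
    · exact ⟨1, one_pos, fun z hz => by rw [hE] at hz; exact absurd hz (Set.notMem_empty z)⟩
    · obtain ⟨z0, hz0, hmin⟩ := hKc.exists_isMinOn hE (continuous_gap hq).continuousOn
      exact ⟨gap q z0.1 z0.2, hpos z0 hz0, fun z hz => hmin hz⟩
  refine ⟨2 ^ q / γ, by positivity, fun s t => ?_⟩
  -- normalised case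
  have hnorm : ∀ s t : ℂ, ‖(s, t)‖ = 1 →
      ‖s - t‖ ^ q ≤ η * (‖s‖ ^ q + ‖t‖ ^ q) + 2 ^ q / γ * gap q s t := by
    intro s t hst
    by_cases hK : (s, t) ∈ K
    · have h1 := hγle _ hK
      have hs1 : ‖s‖ ≤ 1 := by rw [← hst]; exact le_max_left _ _
      have ht1 : ‖t‖ ≤ 1 := by rw [← hst]; exact le_max_right _ _
      have h2 : ‖s - t‖ ^ q ≤ 2 ^ q :=
        Real.rpow_le_rpow (norm_nonneg _) ((norm_sub_le _ _).trans (by linarith)) hq0
      have h3 : (2:ℝ) ^ q ≤ 2 ^ q / γ * gap q s t := by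
        rw [div_mul_eq_mul_div, le_div_iff₀ hγ]
        gcongr
      have h4 : 0 ≤ η * (‖s‖ ^ q + ‖t‖ ^ q) := by positivity
      linarith
    · have h1 : ¬ (η * (‖s‖ ^ q + ‖t‖ ^ q) ≤ ‖s - t‖ ^ q) := fun h => hK ⟨hst, h⟩
      have h2 : 0 ≤ 2 ^ q / γ * gap q s t := mul_nonneg (by positivity) (gap_nonneg hq s t)
      linarith [not_le.1 h1]
  rcases eq_or_ne (s, t) 0 with h0 | h0
  · rw [Prod.mk_eq_zero] at h0
    rw [h0.1, h0.2]
    simp [gap, Real.zero_rpow hqpos.ne']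
  · set r : ℝ := ‖(s, t)‖ with hr
    have hrpos : 0 < r := norm_pos_iff.2 h0
    have hrC : (r : ℂ) ≠ 0 := by exact_mod_cast hrpos.ne'
    have hs : s = (r : ℂ) * ((r : ℂ)⁻¹ * s) := by field_simp
    have ht : t = (r : ℂ) * ((r : ℂ)⁻¹ * t) := by field_simp
    have hn1 : ‖((r : ℂ)⁻¹ * s, (r : ℂ)⁻¹ * t)‖ = 1 := by
      have : ((r : ℂ)⁻¹ * s, (r : ℂ)⁻¹ * t) = (r : ℂ)⁻¹ • (s, t) := by simp
      rw [this, norm_smul, norm_inv, Complex.norm_real, Real.norm_eq_abs, abs_of_pos hrpos, ← hr,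
        inv_mul_cancel₀ hrpos.ne']
    have h1 := hnorm _ _ hn1
    have h2 : ∀ z : ℂ, ‖(r : ℂ) * z‖ ^ q = r ^ q * ‖z‖ ^ q := by
      intro z
      rw [norm_mul, Complex.norm_real, Real.norm_eq_abs, abs_of_nonneg hrpos.le,
        Real.mul_rpow hrpos.le (norm_nonneg _)]
    rw [hs, ht, ← mul_sub, h2, h2, h2, gap_smul hrpos.le]
    have h3 : 0 < r ^ q := by positivity
    nlinarith

variable {X : Type*} [MeasurableSpace X] {μ : Measure X} {p : ENNReal}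

lemma norm_rpow_eq_integral (hp1 : 1 < p) (hp : p ≠ ⊤) (f : Lp ℂ p μ) :
    ‖f‖ ^ p.toReal = ∫ x, ‖f x‖ ^ p.toReal ∂μ := by
  have hp0 : p ≠ 0 := (zero_lt_one.trans hp1).ne'
  have hq : 0 < p.toReal := ENNReal.toReal_pos hp0 hp
  have hint : 0 ≤ ∫ x, ‖f x‖ ^ p.toReal ∂μ := integral_nonneg (fun x => by positivity)
  rw [Lp.norm_def, (Lp.memLp f).eLpNorm_eq_integral_rpow_norm hp0 hp,
    ENNReal.toReal_ofReal (by positivity), ← Real.rpow_mul hint, inv_mul_cancel₀ hq.ne',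
    Real.rpow_one]

lemma integral_aux {a b c : X → ℝ} (ha : Integrable a μ) (hb : Integrable b μ)
    (hc : Integrable c μ) (η C : ℝ) :
    Integrable (fun x => η * (a x + b x) + C * ((a x + b x) / 2 - c x)) μ ∧
    ∫ x, (η * (a x + b x) + C * ((a x + b x) / 2 - c x)) ∂μ =
      η * (∫ x, a x ∂μ + ∫ x, b x ∂μ) + C * ((∫ x, a x ∂μ + ∫ x, b x ∂μ) / 2 - ∫ x, c x ∂μ) := by
  have e : (fun x => η * (a x + b x) + C * ((a x + b x) / 2 - c x)) =
      fun x => ((η + C / 2) * a x + (η + C / 2) * b x) - C * c x := by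
    funext x; ring
  have h1 : Integrable (fun x => (η + C / 2) * a x) μ := ha.const_mul _
  have h2 : Integrable (fun x => (η + C / 2) * b x) μ := hb.const_mul _
  have h3 : Integrable (fun x => C * c x) μ := hc.const_mul _
  have h4 : Integrable (fun x => (η + C / 2) * a x + (η + C / 2) * b x) μ := h1.add h2
  constructor
  · rw [e]; exact h4.sub h3
  · rw [e, integral_sub h4 h3, integral_add h1 h2, integral_const_mul, integral_const_mul,
      integral_const_mul]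
    ring

/-- Integrated form of `pointwise_uc`. -/
lemma integrated_uc (hp1 : 1 < p) (hp : p ≠ ⊤) {η : ℝ} (hη : 0 < η) : ∃ C : ℝ, 0 < C ∧
    ∀ f g : Lp ℂ p μ, ‖f - g‖ ^ p.toReal ≤ η * (‖f‖ ^ p.toReal + ‖g‖ ^ p.toReal) +
      C * ((‖f‖ ^ p.toReal + ‖g‖ ^ p.toReal) / 2 - (‖f + g‖ / 2) ^ p.toReal) := by
  have hp0 : p ≠ 0 := (zero_lt_one.trans hp1).ne'
  have hq : 1 < p.toReal := by
    rw [← ENNReal.toReal_one]
    exact (ENNReal.toReal_lt_toReal ENNReal.one_ne_top hp).2 hp1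
  have : Fact (1 ≤ p) := ⟨hp1.le⟩
  obtain ⟨C, hC, h⟩ := pointwise_uc hq hη
  refine ⟨C, hC, fun f g => ?_⟩
  have e1 : (‖f + g‖ / 2) ^ p.toReal = ∫ x, ‖(1 / 2 : ℝ) • (f x + g x)‖ ^ p.toReal ∂μ := by
    have : ‖f + g‖ / 2 = ‖(1 / 2 : ℝ) • (f + g)‖ := by
      rw [norm_smul, Real.norm_eq_abs, abs_of_pos (by norm_num)]; ring
    rw [this, norm_rpow_eq_integral hp1 hp]
    refine integral_congr_ae ?_
    filter_upwards [Lp.coeFn_smul (1 / 2 : ℝ) (f + g), Lp.coeFn_add f g] with x h1 h2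
    rw [h1, Pi.smul_apply, h2, Pi.add_apply]
  have e2 : ‖f - g‖ ^ p.toReal = ∫ x, ‖f x - g x‖ ^ p.toReal ∂μ := by
    rw [norm_rpow_eq_integral hp1 hp]
    refine integral_congr_ae ?_
    filter_upwards [Lp.coeFn_sub f g] with x h1
    rw [h1, Pi.sub_apply]
  have hf : Integrable (fun x => ‖f x‖ ^ p.toReal) μ := (Lp.memLp f).integrable_norm_rpow hp0 hp
  have hg : Integrable (fun x => ‖g x‖ ^ p.toReal) μ := (Lp.memLp g).integrable_norm_rpow hp0 hp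
  have hfg : Integrable (fun x => ‖(1 / 2 : ℝ) • (f x + g x)‖ ^ p.toReal) μ := by
    have := (Lp.memLp ((1 / 2 : ℝ) • (f + g))).integrable_norm_rpow hp0 hp
    refine this.congr ?_
    filter_upwards [Lp.coeFn_smul (1 / 2 : ℝ) (f + g), Lp.coeFn_add f g] with x h1 h2
    rw [h1, Pi.smul_apply, h2, Pi.add_apply]
  have hfmg : Integrable (fun x => ‖f x - g x‖ ^ p.toReal) μ := by
    have := (Lp.memLp (f - g)).integrable_norm_rpow hp0 hp
    refine this.congr ?_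
    filter_upwards [Lp.coeFn_sub f g] with x h1
    rw [h1, Pi.sub_apply]
  rw [e1, e2, norm_rpow_eq_integral hp1 hp, norm_rpow_eq_integral hp1 hp]
  calc ∫ x, ‖f x - g x‖ ^ p.toReal ∂μ
      ≤ ∫ x, (η * (‖f x‖ ^ p.toReal + ‖g x‖ ^ p.toReal) +
        C * ((‖f x‖ ^ p.toReal + ‖g x‖ ^ p.toReal) / 2
          - ‖(1 / 2 : ℝ) • (f x + g x)‖ ^ p.toReal)) ∂μ := by
        exact integral_mono hfmg (integral_aux hf hg hfg η C).1 (fun x => h (f x) (g x))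
    _ = _ := (integral_aux hf hg hfg η C).2

theorem uc_Lp [Fact (1 ≤ p)] (hp1 : 1 < p) (hp : p ≠ ⊤) : UC (Lp ℂ p μ) := by
  intro δ hδ
  have hq : 1 < p.toReal := by
    rw [← ENNReal.toReal_one]
    exact (ENNReal.toReal_lt_toReal ENNReal.one_ne_top hp).2 hp1
  have hq0 : 0 < p.toReal := by linarith
  set q := p.toReal with hqdef
  obtain ⟨C, hC, h⟩ := integrated_uc (μ := μ) hp1 hp (η := δ ^ q / 4) (by positivity)
  set c : ℝ := min (δ ^ q / (2 * C)) 1 with hc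
  have hcpos : 0 < c := by positivity
  refine ⟨2 * c / q, by positivity, fun x y hx hy hxy => ?_⟩
  have h1 := h x y
  have hxq : ‖x‖ ^ q ≤ 1 := Real.rpow_le_one (norm_nonneg _) hx hq0.le
  have hyq : ‖y‖ ^ q ≤ 1 := Real.rpow_le_one (norm_nonneg _) hy hq0.le
  have hδq : δ ^ q ≤ ‖x - y‖ ^ q := Real.rpow_le_rpow hδ.le hxy hq0.le
  have h2 : (‖x + y‖ / 2) ^ q ≤ 1 - c := by
    have hδqpos : 0 < δ ^ q := by positivity
    have h3 : δ ^ q / 2 ≤ C * (1 - (‖x + y‖ / 2) ^ q) := by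
      have h4 : δ ^ q / 4 * (‖x‖ ^ q + ‖y‖ ^ q) ≤ δ ^ q / 4 * 2 := by gcongr; linarith
      have h5 : C * ((‖x‖ ^ q + ‖y‖ ^ q) / 2 - (‖x + y‖ / 2) ^ q) ≤
        C * (1 - (‖x + y‖ / 2) ^ q) := by gcongr; linarith
      linarith
    have h6 : δ ^ q / (2 * C) ≤ 1 - (‖x + y‖ / 2) ^ q := by
      rw [div_le_iff₀ (by positivity)]
      linarith
    have h7 : c ≤ δ ^ q / (2 * C) := min_le_left _ _
    linarith
  by_contra hcon
  push Not at hcon
  have hc1 : c ≤ 1 := min_le_right _ _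
  have hcq : c / q ≤ 1 := by
    rw [div_le_one hq0]; linarith
  have h3 : 1 - c / q < ‖x + y‖ / 2 := by
    have : 2 * c / q = 2 * (c / q) := by ring
    rw [this] at hcon
    linarith
  have h4 : (1 - c / q) ^ q < (‖x + y‖ / 2) ^ q :=
    Real.rpow_lt_rpow (by linarith) h3 hq0
  have h5 : 1 + q * (-(c / q)) ≤ (1 + -(c / q)) ^ q :=
    one_add_mul_self_le_rpow_one_add (by linarith) hq.le
  have h6 : 1 + q * (-(c / q)) = 1 - c := by field_simp; ring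
  rw [h6, ← sub_eq_add_neg] at h5
  linarith

end Pool.Agent.Work.MP_d7cff0_an
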