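import Mathlib
import Pool.Agent.Work.MP_d7cff0_an.Circle
import Pool.Agent.Work.MP_d7cff0_an.UnifConvex

/-!
# The disc algebra on the circle, Moebius maps, and the localisation lemma
-/

namespace Pool.Agent.Work.MP_d7cff0_an

open MeasureTheory AddCircle Filter Topology Finset Polynomial
open scoped ENNReal

variable {T : ℝ} [hT : Fact (0 < T)] {p : ℝ≥0∞} [hp : Fact (1 ≤ p)]

/-- Inclusion of continuous functions in `L^p`. -/
noncomputable abbrev tl (p : ℝ≥0∞) [Fact (1 ≤ p)] (F : C(AddCircle T, ℂ)) : LpC T p :=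
  ContinuousMap.toLp p haarAddCircle ℂ F

lemma norm_tl_rpow (hp1 : 1 < p) (hp' : p ≠ ⊤) (F : C(AddCircle T, ℂ)) :
    ‖tl p F‖ ^ p.toReal = ∫ t, ‖F t‖ ^ p.toReal ∂haarAddCircle := by
  rw [norm_rpow_eq_integral hp1 hp']
  refine integral_congr_ae ?_
  filter_upwards [ContinuousMap.coeFn_toLp (p := p) (𝕜 := ℂ) haarAddCircle F] with x hx
  rw [hx]

/-- The mean of a continuous function. -/
noncomputable def mean (F : C(AddCircle T, ℂ)) : ℂ := ∫ t, F t ∂haarAddCircle

lemma coef_tl (n : ℤ) (F : C(AddCircle T, ℂ)) : coef n (tl p F) = mean (fourier (-n) * F) := by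
  rw [coef_apply, fourierCoeff_congr_ae (ContinuousMap.coeFn_toLp haarAddCircle F)]
  rfl

lemma mean_eq_coef (F : C(AddCircle T, ℂ)) : mean F = coef 0 (tl p F) := by
  rw [coef_tl]
  congr 1
  ext t
  simp

lemma mean_add (F G : C(AddCircle T, ℂ)) : mean (F + G) = mean F + mean G := by
  rw [mean_eq_coef (p := 1), mean_eq_coef (p := 1), mean_eq_coef (p := 1)]
  simp only [map_add]

lemma mean_smul (c : ℂ) (F : C(AddCircle T, ℂ)) : mean (c • F) = c * mean F := by
  rw [mean_eq_coef (p := 1), mean_eq_coef (p := 1)]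
  simp only [map_smul, smul_eq_mul]

lemma mean_continuous : Continuous (mean (T := T)) := by
  have : mean (T := T) = fun F => coef 0 (tl 1 F) := by
    funext F; exact mean_eq_coef F
  rw [this]
  exact (coef 0).continuous.comp (ContinuousMap.toLp 1 haarAddCircle ℂ).continuous

/-- A polynomial as a function on the circle. -/
noncomputable def pc (P : ℂ[X]) : C(AddCircle T, ℂ) := aeval (fourier 1) P

omit hT in
lemma fourier_one_pow (k : ℕ) : (fourier (T := T) 1) ^ k = fourier (k : ℤ) := by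
  induction k with
  | zero => ext t; simp
  | succ k ih =>
    rw [pow_succ, ih]
    ext t
    rw [ContinuousMap.mul_apply, ← fourier_add]
    push_cast; rfl

omit hT in
lemma pc_eq_sum (P : ℂ[X]) : pc (T := T) P = P.sum (fun k c => c • fourier (k : ℤ)) := by
  unfold pc
  have h0 : ∀ n : ℕ, (0 : ℂ) • fourier (T := T) (n : ℤ) = 0 := by
    intro n; ext t
    simp only [ContinuousMap.smul_apply, zero_smul, ContinuousMap.zero_apply]
  rw [aeval_eq_sum_range, Polynomial.sum_over_range P
    (f := fun k c => c • fourier (T := T) (k : ℤ)) h0]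
  simp only [fourier_one_pow]

omit hT in
lemma pc_apply (P : ℂ[X]) (t : AddCircle T) : pc P t = P.eval (fourier 1 t) := by
  unfold pc
  have h := Polynomial.aeval_algHom_apply (ContinuousMap.evalAlgHom ℂ ℂ t) (fourier (T := T) 1) P
  simp only [ContinuousMap.evalAlgHom_apply] at h
  rw [← h, ← Polynomial.coe_aeval_eq_eval]

lemma coef_tl_pc (n : ℤ) (P : ℂ[X]) :
    coef n (tl p (pc (T := T) P)) = if 0 ≤ n then P.coeff n.toNat else 0 := by
  rw [pc_eq_sum, Polynomial.sum_def]
  simp only [tl, map_sum, map_smul]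
  have h : ∀ k : ℕ, coef n ((ContinuousMap.toLp p haarAddCircle ℂ) (fourier (T := T) (k : ℤ))) =
      if n = k then 1 else 0 := fun k => coef_fourierLp n k
  simp only [h, smul_eq_mul, mul_ite, mul_one, mul_zero]
  by_cases hn : 0 ≤ n
  · rw [if_pos hn]
    have e : ∀ k : ℕ, (n = (k : ℤ)) ↔ k = n.toNat := by intro k; omega
    simp only [e]
    rw [Finset.sum_ite_eq']
    split_ifs with h1
    · rfl
    · rw [mem_support_iff, not_not] at h1
      exact h1.symm
  · rw [if_neg hn]
    refine sum_eq_zero fun k _ => ?_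
    rw [if_neg]; omega

lemma mean_pc (P : ℂ[X]) : mean (pc (T := T) P) = P.eval 0 := by
  rw [mean_eq_coef (p := 1), coef_tl_pc, if_pos le_rfl, Int.toNat_zero,
    Polynomial.coeff_zero_eq_eval_zero]

/-- The disc algebra. -/
noncomputable def discAlg (T : ℝ) [Fact (0 < T)] : Subalgebra ℂ C(AddCircle T, ℂ) :=
  (Algebra.adjoin ℂ {fourier 1}).topologicalClosure

lemma pc_mem (P : ℂ[X]) : pc P ∈ discAlg T := by
  unfold discAlg
  apply Subalgebra.le_topologicalClosure
  rw [Algebra.adjoin_singleton_eq_range_aeval]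
  exact ⟨P, rfl⟩

/-- Closed properties of polynomials hold on the disc algebra. -/
lemma discAlg_induction {S : Set C(AddCircle T, ℂ)} (hS : IsClosed S)
    (h : ∀ P : ℂ[X], pc P ∈ S) {F : C(AddCircle T, ℂ)} (hF : F ∈ discAlg T) : F ∈ S := by
  have hF' : F ∈ closure ((Algebra.adjoin ℂ {fourier (T := T) 1} : Subalgebra ℂ _) :
      Set C(AddCircle T, ℂ)) := hF
  refine closure_minimal ?_ hS hF'
  intro G hG
  rw [SetLike.mem_coe, Algebra.adjoin_singleton_eq_range_aeval] at hG
  obtain ⟨P, rfl⟩ := hG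
  exact h P

lemma mean_mul {F G : C(AddCircle T, ℂ)} (hF : F ∈ discAlg T) (hG : G ∈ discAlg T) :
    mean (F * G) = mean F * mean G := by
  have h1 : ∀ Q : ℂ[X], ∀ F ∈ discAlg T, mean (F * pc Q) = mean F * mean (pc (T := T) Q) := by
    intro Q F hF
    refine discAlg_induction (S := {F | mean (F * pc Q) = mean F * mean (pc (T := T) Q)}) ?_ ?_ hF
    · exact isClosed_eq (mean_continuous.comp (continuous_id.mul continuous_const))
        (mean_continuous.mul continuous_const)
    · intro P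
      have : pc P * pc Q = pc (T := T) (P * Q) := by unfold pc; rw [map_mul]
      rw [Set.mem_ofPred_eq, this, mean_pc, mean_pc, mean_pc, Polynomial.eval_mul]
  refine discAlg_induction (S := {G | mean (F * G) = mean F * mean G}) ?_ ?_ hG
  · exact isClosed_eq (mean_continuous.comp (continuous_const.mul continuous_id))
      (continuous_const.mul mean_continuous)
  · intro Q
    exact h1 Q F hF

lemma coef_neg_of_mem {F : C(AddCircle T, ℂ)} (hF : F ∈ discAlg T) {n : ℤ} (hn : n < 0) :
    coef n (tl p F) = 0 := by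
  refine discAlg_induction (S := {F | coef n (tl p F) = 0}) ?_ ?_ hF
  · exact isClosed_eq ((coef n).continuous.comp
      (ContinuousMap.toLp p haarAddCircle ℂ).continuous) continuous_const
  · intro P
    rw [Set.mem_ofPred_eq, coef_tl_pc, if_neg (by omega)]

/-- The mean as an algebra homomorphism on the disc algebra. -/
noncomputable def meanHom (T : ℝ) [Fact (0 < T)] : discAlg T →ₐ[ℂ] ℂ :=
  AlgHom.ofLinearMap
    { toFun := fun F => mean (F : C(AddCircle T, ℂ))
      map_add' := fun F G => mean_add _ _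
      map_smul' := fun c F => mean_smul _ _ }
    (by
      change mean (1 : C(AddCircle T, ℂ)) = 1
      have : (1 : C(AddCircle T, ℂ)) = pc 1 := by unfold pc; rw [map_one]
      rw [this, mean_pc]; simp)
    (fun F G => mean_mul F.2 G.2)

lemma meanHom_apply (F : discAlg T) : meanHom T F = mean (F : C(AddCircle T, ℂ)) := rfl

lemma aeval_mem {φ : C(AddCircle T, ℂ)} (hφ : φ ∈ discAlg T) (P : ℂ[X]) :
    aeval φ P ∈ discAlg T := by
  have := Subalgebra.aeval_coe (discAlg T) ⟨φ, hφ⟩ P
  rw [this]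
  exact (aeval (⟨φ, hφ⟩ : discAlg T) P).2

lemma mean_aeval {φ : C(AddCircle T, ℂ)} (hφ : φ ∈ discAlg T) (P : ℂ[X]) :
    mean (aeval φ P) = P.eval (mean φ) := by
  have h1 := Subalgebra.aeval_coe (discAlg T) ⟨φ, hφ⟩ P
  have h2 := Polynomial.aeval_algHom_apply (meanHom T) (⟨φ, hφ⟩ : discAlg T) P
  rw [meanHom_apply, meanHom_apply] at h2
  rw [h1, ← h2, ← Polynomial.coe_aeval_eq_eval]

omit hT in
lemma aeval_apply (φ : C(AddCircle T, ℂ)) (P : ℂ[X]) (t : AddCircle T) :
    aeval φ P t = P.eval (φ t) := by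
  have h := Polynomial.aeval_algHom_apply (ContinuousMap.evalAlgHom ℂ ℂ t) φ P
  simp only [ContinuousMap.evalAlgHom_apply] at h
  rw [← h, ← Polynomial.coe_aeval_eq_eval]


/-! ### Moebius maps -/

omit hT in
lemma norm_fourier_one (t : AddCircle T) : ‖fourier (T := T) 1 t‖ = 1 := by simp

/-- A unimodular function `φ` in the disc algebra with prescribed mean `a ∈ [0,1)`. -/
lemma exists_moebius {a : ℝ} (ha0 : 0 ≤ a) (ha1 : a < 1) : ∃ φ : C(AddCircle T, ℂ),
    φ ∈ discAlg T ∧ mean φ = a ∧ (∀ t, ‖φ t‖ = 1) ∧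
    (∀ t, φ t * (1 + a * fourier 1 t) = fourier 1 t + a) := by
  have hz : fourier (T := T) 1 ∈ discAlg T := by
    have : fourier (T := T) 1 = pc X := by unfold pc; rw [aeval_X]
    rw [this]; exact pc_mem X
  have hzm : mean (fourier (T := T) 1) = 0 := by
    have : fourier (T := T) 1 = pc X := by unfold pc; rw [aeval_X]
    rw [this, mean_pc]; simp
  have h1m : mean (1 : C(AddCircle T, ℂ)) = 1 := by
    have : (1 : C(AddCircle T, ℂ)) = pc 1 := by unfold pc; rw [map_one]
    rw [this, mean_pc]; simp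
  -- completeness of the disc algebra
  have hclosed : IsClosed (discAlg T : Set C(AddCircle T, ℂ)) :=
    Subalgebra.isClosed_topologicalClosure _
  have : CompleteSpace (discAlg T) := hclosed.completeSpace_coe
  let z : discAlg T := ⟨fourier 1, hz⟩
  have hzn : ‖-((a : ℂ) • z)‖ < 1 := by
    rw [norm_neg, norm_smul, Complex.norm_real, Real.norm_eq_abs, abs_of_nonneg ha0]
    have : ‖z‖ ≤ 1 := by
      change ‖fourier (T := T) 1‖ ≤ 1
      rw [ContinuousMap.norm_le _ zero_le_one]
      intro t; rw [norm_fourier_one]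
    nlinarith [norm_nonneg z]
  let u : (discAlg T)ˣ := Units.oneSub (-((a : ℂ) • z)) hzn
  have hu : (u : discAlg T) = 1 + (a : ℂ) • z := by
    simp [u, Units.val_oneSub]
  let φ : discAlg T := (z + (a : ℂ) • 1) * (u⁻¹ : (discAlg T)ˣ)
  have hφu : φ * (1 + (a : ℂ) • z) = z + (a : ℂ) • 1 := by
    rw [← hu]
    simp [φ, mul_assoc]
  have hpt : ∀ t, (φ : C(AddCircle T, ℂ)) t * (1 + a * fourier 1 t) = fourier 1 t + a := by
    intro t
    have := congrArg (fun F : discAlg T => (F : C(AddCircle T, ℂ)) t) hφu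
    simpa [z] using this
  refine ⟨φ, φ.2, ?_, ?_, hpt⟩
  · have h := congrArg (meanHom T) hφu
    rw [map_mul, map_add, map_add, map_smul, map_smul, map_one] at h
    have hz0 : meanHom T z = 0 := hzm
    rw [hz0] at h
    simp only [smul_eq_mul, mul_zero, add_zero, mul_one, zero_add] at h
    exact h
  · intro t
    have h1 := hpt t
    set w : ℂ := fourier 1 t with hw
    have hwn : ‖w‖ = 1 := norm_fourier_one t
    have hww : w * (starRingEnd ℂ) w = 1 := by
      rw [Complex.mul_conj, Complex.normSq_eq_norm_sq, hwn]; simp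
    have h2 : ‖w + a‖ = ‖1 + a * w‖ := by
      have : w + a = w * (starRingEnd ℂ) (1 + a * w) := by
        rw [map_add, map_one, map_mul, Complex.conj_ofReal, mul_add, mul_one]
        rw [mul_left_comm, hww, mul_one]
      rw [this, norm_mul, hwn, one_mul, RCLike.norm_conj]
    have h3 : ‖1 + a * w‖ ≠ 0 := by
      have h4 : 1 - a ≤ ‖1 + a * w‖ := by
        have h5 := norm_sub_norm_le (1 : ℂ) (-(a * w))
        rw [norm_neg, norm_mul, hwn, mul_one, norm_one, Complex.norm_real, Real.norm_eq_abs,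
          abs_of_nonneg ha0, sub_neg_eq_add] at h5
        exact h5
      have : 0 < ‖1 + a * w‖ := by linarith
      exact this.ne'
    have h6 : ‖(φ : C(AddCircle T, ℂ)) t‖ * ‖1 + a * w‖ = ‖1 + a * w‖ := by
      rw [← norm_mul, h1, h2]
    exact mul_right_cancel₀ h3 (by rw [h6, one_mul])

/-! ### Fubini for continuous functions -/

lemma swap_cont {f : AddCircle T → AddCircle T → ℝ} (hf : Continuous (Function.uncurry f)) :
    ∫ t, ∫ w, f t w ∂haarAddCircle ∂haarAddCircle =
      ∫ w, ∫ t, f t w ∂haarAddCircle ∂haarAddCircle := by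
  refine integral_integral_swap ?_
  exact hf.integrable_of_hasCompactSupport (HasCompactSupport.of_compactSpace _)

/-! ### Scaling of polynomials -/

/-- `P(ζ z)`. -/
noncomputable def sc (ζ : ℂ) (P : ℂ[X]) : ℂ[X] := P.comp (C ζ * X)

lemma sc_eval (ζ : ℂ) (P : ℂ[X]) (z : ℂ) : (sc ζ P).eval z = P.eval (ζ * z) := by
  simp [sc]

/-- The `L^p` element of a polynomial. -/
noncomputable abbrev pl (T : ℝ) [Fact (0 < T)] (p : ℝ≥0∞) [Fact (1 ≤ p)] (P : ℂ[X]) : LpC T p :=
  tl p (pc P)

lemma pl_add (P Q : ℂ[X]) : pl T p (P + Q) = pl T p P + pl T p Q := by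
  simp [pl, pc, tl]

lemma pl_sub (P Q : ℂ[X]) : pl T p (P - Q) = pl T p P - pl T p Q := by
  simp [pl, pc, tl]

lemma norm_pl_rpow (hp1 : 1 < p) (hp' : p ≠ ⊤) (P : ℂ[X]) :
    ‖pl T p P‖ ^ p.toReal = ∫ t, ‖P.eval (fourier (T := T) 1 t)‖ ^ p.toReal ∂haarAddCircle := by
  rw [norm_tl_rpow hp1 hp']
  simp only [pc_apply]

lemma norm_pl_sc {ζ : ℂ} (hζ : ‖ζ‖ = 1) (P : ℂ[X]) : ‖pl T p (sc ζ P)‖ = ‖pl T p P‖ := by
  have hT0 : T ≠ 0 := hT.out.ne'
  obtain ⟨s, hs⟩ : ∃ s : AddCircle T, fourier 1 s = ζ := by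
    obtain ⟨s, hs⟩ := (AddCircle.homeomorphCircle hT0).surjective
      ⟨ζ, by rw [Submonoid.unitSphere, ]; simpa using hζ⟩
    refine ⟨s, ?_⟩
    rw [AddCircle.homeomorphCircle_apply] at hs
    rw [fourier_one, hs]
  have : pl T p (sc ζ P) = tr s (pl T p P) := by
    apply Lp.ext
    refine (ContinuousMap.coeFn_toLp haarAddCircle _).trans ?_
    refine EventuallyEq.trans ?_ (tr_apply_ae s _).symm
    have h1 := ContinuousMap.coeFn_toLp (p := p) (𝕜 := ℂ) (haarAddCircle (T := T)) (pc P)
    have h2 := (measurePreserving_add_right (haarAddCircle (T := T)) s).quasiMeasurePreserving.ae_eq h1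
    filter_upwards [h2] with x hx
    simp only [Function.comp] at hx
    rw [hx, pc_apply, pc_apply, sc_eval, ← hs, fourier_add_arg]
  rw [this, LinearIsometry.norm_map]

/-! ### The localisation inequality -/

/-- `β` bounds `f ↦ f - f^(0)` on the Hardy space (only the disc algebra is needed here). -/
def BoundsDisc (T : ℝ) [Fact (0 < T)] (p : ℝ≥0∞) [Fact (1 ≤ p)] (β : ℝ) : Prop :=
  ∀ F ∈ discAlg T, ‖tl p (F - mean F • (1 : C(AddCircle T, ℂ)))‖ ≤ β * ‖tl p F‖

lemma continuous_eval_pow {α : Type*} [TopologicalSpace α] {q : ℝ} (hq : 0 ≤ q)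
    {f : α → ℂ} (hf : Continuous f) : Continuous (fun x => ‖f x‖ ^ q) :=
  hf.norm.rpow_const (fun _ => Or.inr hq)

omit hp in
lemma toReal_pos' (hp1 : 1 < p) (hp' : p ≠ ⊤) : 0 < p.toReal :=
  ENNReal.toReal_pos (zero_lt_one.trans hp1).ne' hp'

/-- Radial contraction. -/
lemma norm_pl_sc_le (hp1 : 1 < p) (hp' : p ≠ ⊤) {a : ℝ} (ha0 : 0 ≤ a) (ha1 : a < 1) (P : ℂ[X]) :
    ‖pl T p (sc a P)‖ ≤ ‖pl T p P‖ := by
  have hq := toReal_pos' hp1 hp'
  obtain ⟨φ, hφ, hφm, hφn, -⟩ := exists_moebius (T := T) ha0 ha1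
  have h1 : ∀ t : AddCircle T, ‖P.eval (a * fourier 1 t)‖ ^ p.toReal ≤
      ∫ w, ‖P.eval (φ w * fourier 1 t)‖ ^ p.toReal ∂haarAddCircle := by
    intro t
    have hF := aeval_mem hφ (sc (fourier 1 t) P)
    have h2 : mean (aeval φ (sc (fourier 1 t) P)) = P.eval (a * fourier 1 t) := by
      rw [mean_aeval hφ, sc_eval, hφm, mul_comm]
    rw [← h2, mean_eq_coef (p := p)]
    calc _ ≤ ‖tl p (aeval φ (sc (fourier 1 t) P))‖ ^ p.toReal := by
          gcongr; exact norm_coef_le _ _
      _ = _ := by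
          rw [norm_tl_rpow hp1 hp']
          refine integral_congr_ae (Eventually.of_forall fun w => ?_)
          simp only [aeval_apply, sc_eval]
          rw [mul_comm]
  have h2 : ‖pl T p (sc a P)‖ ^ p.toReal ≤ ‖pl T p P‖ ^ p.toReal := by
    rw [norm_pl_rpow hp1 hp']
    simp only [sc_eval]
    have hcont : Continuous (Function.uncurry fun t w : AddCircle T =>
        ‖P.eval (φ w * fourier 1 t)‖ ^ p.toReal) := by
      refine continuous_eval_pow hq.le ?_
      exact P.continuous.comp (by fun_prop)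
    calc _ ≤ ∫ t, ∫ w, ‖P.eval (φ w * fourier 1 t)‖ ^ p.toReal
          ∂haarAddCircle ∂(haarAddCircle (T := T)) := by
          refine integral_mono ?_ ?_ h1
          · exact integrable_cont (continuous_eval_pow hq.le (P.continuous.comp (by fun_prop)))
          · refine (Integrable.integral_prod_left (μ := haarAddCircle (T := T))
              (ν := haarAddCircle (T := T))
              (f := Function.uncurry fun t w : AddCircle T =>
                ‖P.eval (φ w * fourier 1 t)‖ ^ p.toReal) ?_)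
            exact hcont.integrable_of_hasCompactSupport (HasCompactSupport.of_compactSpace _)
      _ = ∫ w, ∫ t, ‖P.eval (φ w * fourier 1 t)‖ ^ p.toReal
          ∂haarAddCircle ∂(haarAddCircle (T := T)) := swap_cont hcont
      _ = ∫ w : AddCircle T, ‖pl T p P‖ ^ p.toReal ∂(haarAddCircle (T := T)) := by
          refine integral_congr_ae (Eventually.of_forall fun w => ?_)
          simp only
          rw [← norm_pl_sc (hφn w) P, norm_pl_rpow hp1 hp']
          simp only [sc_eval]
      _ = _ := by simp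
  exact (Real.rpow_le_rpow_iff (norm_nonneg _) (norm_nonneg _) hq).1 h2

lemma norm_pl_X_pow_mul (hp1 : 1 < p) (hp' : p ≠ ⊤) (L : ℕ) (P : ℂ[X]) :
    ‖pl T p (X ^ L * P)‖ = ‖pl T p P‖ := by
  have hq := toReal_pos' hp1 hp'
  have h : ‖pl T p (X ^ L * P)‖ ^ p.toReal = ‖pl T p P‖ ^ p.toReal := by
    rw [norm_pl_rpow hp1 hp', norm_pl_rpow hp1 hp']
    refine integral_congr_ae (Eventually.of_forall fun t => ?_)
    simp only [eval_mul, eval_pow, eval_X, norm_mul, norm_pow, norm_fourier_one, one_pow, one_mul]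
  have h1 := (Real.rpow_le_rpow_iff (norm_nonneg _) (norm_nonneg _) hq).1 h.le
  have h2 := (Real.rpow_le_rpow_iff (norm_nonneg _) (norm_nonneg _) hq).1 h.ge
  exact le_antisymm h1 h2

/-- The integrated inequality (A2). -/
lemma local_ineq (hp1 : 1 < p) (hp' : p ≠ ⊤) {β : ℝ} (hβ0 : 0 ≤ β) (hβ : BoundsDisc T p β)
    {φ : C(AddCircle T, ℂ)} (hφ : φ ∈ discAlg T) {a : ℝ} (hφm : mean φ = a) (P Q : ℂ[X]) :
    ∫ w, ‖pl T p (sc (φ w) Q) - pl T p (sc a Q)‖ ^ p.toReal ∂haarAddCircle ≤
      β ^ p.toReal * ∫ w, ‖pl T p P + pl T p (sc (φ w) Q)‖ ^ p.toReal ∂haarAddCircle := by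
  have hq := toReal_pos' hp1 hp'
  have h1 : ∀ t : AddCircle T,
      ∫ w, ‖Q.eval (φ w * fourier 1 t) - Q.eval (a * fourier 1 t)‖ ^ p.toReal ∂haarAddCircle ≤
      β ^ p.toReal * ∫ w, ‖P.eval (fourier 1 t) + Q.eval (φ w * fourier 1 t)‖ ^ p.toReal
        ∂haarAddCircle := by
    intro t
    set R : ℂ[X] := C (P.eval (fourier 1 t)) + sc (fourier 1 t) Q with hR
    have hF := aeval_mem hφ R
    have hm : mean (aeval φ R) = P.eval (fourier 1 t) + Q.eval (a * fourier 1 t) := by
      rw [mean_aeval hφ, hR, eval_add, eval_C, sc_eval, hφm, mul_comm]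
    have h2 := hβ _ hF
    have h3 := Real.rpow_le_rpow (norm_nonneg _) h2 hq.le
    rw [Real.mul_rpow hβ0 (norm_nonneg _), norm_tl_rpow hp1 hp', norm_tl_rpow hp1 hp'] at h3
    have e1 : ∀ w, (aeval φ R - mean (aeval φ R) • (1 : C(AddCircle T, ℂ))) w =
        Q.eval (φ w * fourier 1 t) - Q.eval (a * fourier 1 t) := by
      intro w
      rw [hm]
      simp only [ContinuousMap.sub_apply, ContinuousMap.smul_apply, ContinuousMap.one_apply,
        aeval_apply, hR, eval_add, eval_C, sc_eval, smul_eq_mul, mul_one]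
      rw [mul_comm (φ w)]
      ring
    have e2 : ∀ w, (aeval φ R) w = P.eval (fourier 1 t) + Q.eval (φ w * fourier 1 t) := by
      intro w
      simp only [aeval_apply, hR, eval_add, eval_C, sc_eval]
      rw [mul_comm (φ w)]
    simp only [e1, e2] at h3
    exact h3
  have hc1 : Continuous (Function.uncurry fun t w : AddCircle T =>
      ‖Q.eval (φ w * fourier 1 t) - Q.eval (a * fourier 1 t)‖ ^ p.toReal) := by
    refine continuous_eval_pow hq.le (Continuous.sub ?_ ?_)
    · exact Q.continuous.comp (by fun_prop)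
    · exact Q.continuous.comp (by fun_prop)
  have hc2 : Continuous (Function.uncurry fun t w : AddCircle T =>
      ‖P.eval (fourier 1 t) + Q.eval (φ w * fourier 1 t)‖ ^ p.toReal) := by
    refine continuous_eval_pow hq.le (Continuous.add ?_ ?_)
    · exact P.continuous.comp (by fun_prop)
    · exact Q.continuous.comp (by fun_prop)
  have hi1 : Integrable (Function.uncurry fun t w : AddCircle T =>
      ‖Q.eval (φ w * fourier 1 t) - Q.eval (a * fourier 1 t)‖ ^ p.toReal)
      ((haarAddCircle (T := T)).prod (haarAddCircle (T := T))) :=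
    hc1.integrable_of_hasCompactSupport (HasCompactSupport.of_compactSpace _)
  have hi2 : Integrable (Function.uncurry fun t w : AddCircle T =>
      ‖P.eval (fourier 1 t) + Q.eval (φ w * fourier 1 t)‖ ^ p.toReal)
      ((haarAddCircle (T := T)).prod (haarAddCircle (T := T))) :=
    hc2.integrable_of_hasCompactSupport (HasCompactSupport.of_compactSpace _)
  have h4 := integral_mono hi1.integral_prod_left (hi2.integral_prod_left.const_mul _) h1
  rw [integral_const_mul] at h4
  have s1 := swap_cont hc1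
  have s2 := swap_cont hc2
  simp only [Function.uncurry_apply_pair] at h4
  rw [s1, s2] at h4
  have e1 : ∀ w, ∫ t, ‖Q.eval (φ w * fourier (T := T) 1 t) - Q.eval (a * fourier 1 t)‖ ^ p.toReal
      ∂haarAddCircle = ‖pl T p (sc (φ w) Q) - pl T p (sc a Q)‖ ^ p.toReal := by
    intro w
    rw [← pl_sub, norm_pl_rpow hp1 hp']
    simp only [eval_sub, sc_eval]
  have e2 : ∀ w, ∫ t, ‖P.eval (fourier (T := T) 1 t) + Q.eval (φ w * fourier 1 t)‖ ^ p.toReal
      ∂haarAddCircle = ‖pl T p P + pl T p (sc (φ w) Q)‖ ^ p.toReal := by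
    intro w
    rw [← pl_add, norm_pl_rpow hp1 hp']
    simp only [eval_add, sc_eval]
  simp only [e1, e2] at h4
  exact h4

end Pool.Agent.Work.MP_d7cff0_an
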