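import Mathlib
import Pool.Agent.Work.MP_d7cff0_an.Disc

/-!
# The localisation lemma
-/

namespace Pool.Agent.Work.MP_d7cff0_an

open MeasureTheory AddCircle Filter Topology Finset Polynomial
open scoped ENNReal

variable {T : ℝ} [hT : Fact (0 < T)] {p : ℝ≥0∞} [hp : Fact (1 ≤ p)]

omit hp in
lemma one_lt_toReal (hp1 : 1 < p) (hp' : p ≠ ⊤) : 1 < p.toReal := by
  rw [← ENNReal.toReal_one]
  exact (ENNReal.toReal_lt_toReal ENNReal.one_ne_top hp').2 hp1

/-- A unimodular `φ` in the disc algebra, close to `1` in `L^p`. -/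
lemma exists_phi (hp1 : 1 < p) (hp' : p ≠ ⊤) {ε : ℝ} (hε : 0 < ε) :
    ∃ (a : ℝ) (φ : C(AddCircle T, ℂ)), 0 ≤ a ∧ a < 1 ∧ φ ∈ discAlg T ∧ mean φ = a ∧
      (∀ t, ‖φ t‖ = 1) ∧ ‖tl p (1 - φ)‖ ≤ ε := by
  have hq := toReal_pos' hp1 hp'
  have hq1 := one_lt_toReal hp1 hp'
  set q := p.toReal with hqdef
  set δ : ℝ := ε / 2 with hδ
  have hδpos : 0 < δ := by positivity
  set c : ℝ := min 1 (ε ^ q * δ ^ 2 / (4 * 2 ^ q)) with hc
  have hcpos : 0 < c := by positivity
  have hc1 : c ≤ 1 := min_le_left _ _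
  obtain ⟨φ, hφ, hφm, hφn, -⟩ := exists_moebius (T := T) (a := 1 - c) (by linarith) (by linarith)
  refine ⟨1 - c, φ, by linarith, by linarith, hφ, hφm, hφn, ?_⟩
  -- pointwise bound
  have hpt : ∀ t, ‖(1 - φ) t‖ ^ q ≤ δ ^ q + 2 ^ q / δ ^ 2 * ‖(1 - φ) t‖ ^ 2 := by
    intro t
    have h2 : ‖(1 - φ) t‖ ≤ 2 := by
      rw [ContinuousMap.sub_apply, ContinuousMap.one_apply]
      refine (norm_sub_le _ _).trans ?_
      rw [hφn, norm_one]; norm_num
    rcases le_total ‖(1 - φ) t‖ δ with h | h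
    · have h3 : ‖(1 - φ) t‖ ^ q ≤ δ ^ q := Real.rpow_le_rpow (norm_nonneg _) h hq.le
      have h4 : 0 ≤ 2 ^ q / δ ^ 2 * ‖(1 - φ) t‖ ^ 2 := by positivity
      linarith
    · have h3 : ‖(1 - φ) t‖ ^ q ≤ 2 ^ q := Real.rpow_le_rpow (norm_nonneg _) h2 hq.le
      have h4 : (2:ℝ) ^ q ≤ 2 ^ q / δ ^ 2 * ‖(1 - φ) t‖ ^ 2 := by
        rw [div_mul_eq_mul_div, le_div_iff₀ (by positivity)]
        gcongr
      have h5 : 0 ≤ δ ^ q := by positivity
      linarith
  have hsq : ∫ t, ‖(1 - φ) t‖ ^ 2 ∂(haarAddCircle (T := T)) = 2 * c := by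
    have h1 : ∀ t, ‖(1 - φ) t‖ ^ 2 = 2 - 2 * (φ t).re := by
      intro t
      rw [ContinuousMap.sub_apply, ContinuousMap.one_apply]
      have h2 : ‖φ t‖ ^ 2 = 1 := by rw [hφn]; norm_num
      rw [Complex.sq_norm, Complex.normSq_apply] at h2 ⊢
      simp only [Complex.sub_re, Complex.one_re, Complex.sub_im, Complex.one_im]
      nlinarith
    simp only [h1]
    have hre : ∫ t, (φ t).re ∂(haarAddCircle (T := T)) = 1 - c := by
      have h3 := integral_re (𝕜 := ℂ) (integrable_cont (T := T) φ.continuous)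
      have h4 : ∫ t, φ t ∂(haarAddCircle (T := T)) = ((1 - c : ℝ) : ℂ) := hφm
      rw [h4] at h3
      exact h3
    rw [integral_sub (integrable_const _)
      (integrable_cont (by fun_prop)), integral_const_mul, hre]
    simp
    ring
  have h1 : ‖tl p (1 - φ)‖ ^ q ≤ ε ^ q := by
    rw [norm_tl_rpow hp1 hp']
    calc _ ≤ ∫ t, (δ ^ q + 2 ^ q / δ ^ 2 * ‖(1 - φ) t‖ ^ 2) ∂(haarAddCircle (T := T)) := by
          refine integral_mono ?_ ?_ hpt
          · exact integrable_cont (continuous_eval_pow hq.le (1 - φ).continuous)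
          · exact integrable_cont (by fun_prop)
      _ = δ ^ q + 2 ^ q / δ ^ 2 * (2 * c) := by
          rw [integral_add (integrable_const _) (integrable_cont (by fun_prop)),
            integral_const_mul, hsq]
          simp
      _ ≤ ε ^ q / 2 + ε ^ q / 2 := by
          have h2 : δ ^ q ≤ ε ^ q / 2 := by
            rw [hδ, Real.div_rpow hε.le (by norm_num)]
            have h3 : (2:ℝ) ≤ 2 ^ q := by
              calc (2:ℝ) = 2 ^ (1:ℝ) := by simp
                _ ≤ 2 ^ q := Real.rpow_le_rpow_of_exponent_le (by norm_num) hq1.le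
            gcongr
          have h4 : 2 ^ q / δ ^ 2 * (2 * c) ≤ ε ^ q / 2 := by
            have h5 : c ≤ ε ^ q * δ ^ 2 / (4 * 2 ^ q) := min_le_right _ _
            calc 2 ^ q / δ ^ 2 * (2 * c) ≤ 2 ^ q / δ ^ 2 * (2 * (ε ^ q * δ ^ 2 / (4 * 2 ^ q))) := by
                  gcongr
              _ = ε ^ q / 2 := by
                  have : (2:ℝ) ^ q ≠ 0 := by positivity
                  field_simp
                  ring
          linarith
      _ = ε ^ q := by ring
  exact (Real.rpow_le_rpow_iff (norm_nonneg _) hε.le hq).1 h1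

lemma pl_monomial (k : ℕ) (c : ℂ) : pl T p (monomial k c) = c • fourierLp p (k : ℤ) := by
  unfold pl tl pc
  rw [aeval_monomial, fourier_one_pow]
  rw [← Algebra.smul_def, map_smul]

lemma norm_pl_monomial (k : ℕ) (c : ℂ) : ‖pl T p (monomial k c)‖ = ‖c‖ := by
  rw [pl_monomial, norm_smul, norm_fourierLp, mul_one]

lemma pl_sum {ι : Type*} (s : Finset ι) (f : ι → ℂ[X]) :
    pl T p (∑ i ∈ s, f i) = ∑ i ∈ s, pl T p (f i) := by
  simp [pl, pc, tl]

lemma norm_coeff_le (P : ℂ[X]) (k : ℕ) : ‖P.coeff k‖ ≤ ‖pl T p P‖ := by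
  have h := norm_coef_le (k : ℤ) (pl T p P)
  rw [coef_tl_pc, if_pos (by omega), Int.toNat_natCast] at h
  exact h

lemma norm_one_sub_pow_le {ζ : ℂ} (hζ : ‖ζ‖ = 1) (k : ℕ) : ‖1 - ζ ^ k‖ ≤ k * ‖1 - ζ‖ := by
  induction k with
  | zero => simp
  | succ k ih =>
    have e : 1 - ζ ^ (k + 1) = (1 - ζ ^ k) + ζ ^ k * (1 - ζ) := by ring
    rw [e]
    refine (norm_add_le _ _).trans ?_
    rw [norm_mul, norm_pow, hζ, one_pow, one_mul]
    push_cast
    linarith

/-- Low-degree polynomials vary slowly under rotation. -/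
lemma norm_pl_sub_sc_le {N : ℕ} {P : ℂ[X]} (hP : P.natDegree < N) {ζ : ℂ} (hζ : ‖ζ‖ = 1) :
    ‖pl T p P - pl T p (sc ζ P)‖ ≤ (N : ℝ) ^ 2 * ‖pl T p P‖ * ‖1 - ζ‖ := by
  have h1 : P - sc ζ P = ∑ k ∈ range N, monomial k ((1 - ζ ^ k) * P.coeff k) := by
    ext n
    rw [coeff_sub, finsetSum_coeff]
    simp only [coeff_monomial]
    rw [Finset.sum_ite_eq']
    have h2 : (sc ζ P).coeff n = P.coeff n * ζ ^ n := by
      unfold sc; rw [comp_C_mul_X_coeff]
    rw [h2]
    split_ifs with h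
    · ring
    · rw [mem_range, not_lt] at h
      rw [coeff_eq_zero_of_natDegree_lt (hP.trans_le h)]; ring
  rw [← pl_sub, h1, pl_sum]
  refine (norm_sum_le _ _).trans ?_
  calc _ ≤ ∑ k ∈ range N, (N * ‖pl T p P‖ * ‖1 - ζ‖) := by
        refine sum_le_sum fun k hk => ?_
        rw [norm_pl_monomial, norm_mul]
        have h2 := norm_one_sub_pow_le hζ k
        have h3 := norm_coeff_le (T := T) (p := p) P k
        have hkN : (k : ℝ) ≤ N := by
          have := mem_range.1 hk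
          exact_mod_cast this.le
        calc ‖1 - ζ ^ k‖ * ‖P.coeff k‖ ≤ (N * ‖1 - ζ‖) * ‖pl T p P‖ := by
              refine mul_le_mul (h2.trans ?_) h3 (norm_nonneg _) (by positivity)
              gcongr
          _ = _ := by ring
    _ = _ := by simp; ring

/-- The key quantitative inequality. -/
lemma key_ineq (hp1 : 1 < p) (hp' : p ≠ ⊤) {β : ℝ} (hβ0 : 0 ≤ β) (hβ : BoundsDisc T p β)
    {φ : C(AddCircle T, ℂ)} (hφ : φ ∈ discAlg T) {a : ℝ} (ha0 : 0 ≤ a) (ha1 : a < 1)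
    (hφm : mean φ = a) (hφn : ∀ t, ‖φ t‖ = 1) {N : ℕ} {P : ℂ[X]} (hP : P.natDegree < N)
    (L : ℕ) (R : ℂ[X]) :
    (1 - a ^ L) * ‖pl T p (X ^ L * R)‖ ≤ β * (‖pl T p P + pl T p (X ^ L * R)‖ +
      (N : ℝ) ^ 2 * ‖pl T p P‖ * ‖tl p (1 - φ)‖) := by
  have hq := toReal_pos' hp1 hp'
  set Q : ℂ[X] := X ^ L * R with hQ
  have h1 := local_ineq hp1 hp' hβ0 hβ hφ hφm P Q
  -- the left side
  have haL : a ^ L ≤ 1 := pow_le_one₀ ha0 ha1.le
  have hsa : ‖pl T p (sc a Q)‖ ≤ a ^ L * ‖pl T p Q‖ := by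
    have e : sc a Q = C ((a : ℂ) ^ L) * (X ^ L * sc a R) := by
      rw [hQ]; unfold sc
      rw [mul_comp, pow_comp, X_comp, mul_pow, ← C_pow]; ring
    have e2 : pl T p (sc a Q) = ((a : ℂ) ^ L) • pl T p (X ^ L * sc a R) := by
      rw [e]
      unfold pl tl pc
      rw [← smul_eq_C_mul, map_smul, map_smul]
    rw [e2, norm_smul, norm_pow, Complex.norm_real, Real.norm_eq_abs, abs_of_nonneg ha0,
      norm_pl_X_pow_mul hp1 hp', hQ, norm_pl_X_pow_mul hp1 hp']
    gcongr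
    exact norm_pl_sc_le hp1 hp' ha0 ha1 R
  have hleft : ∀ w, ((1 - a ^ L) * ‖pl T p Q‖) ^ p.toReal ≤
      ‖pl T p (sc (φ w) Q) - pl T p (sc a Q)‖ ^ p.toReal := by
    intro w
    refine Real.rpow_le_rpow (mul_nonneg (by linarith) (norm_nonneg _)) ?_ hq.le
    have h2 := norm_sub_norm_le (pl T p (sc (φ w) Q)) (pl T p (sc a Q))
    rw [norm_pl_sc (hφn w)] at h2
    linarith
  -- the right side
  set A : ℝ := ‖pl T p P + pl T p Q‖ with hA
  set B : ℝ := (N : ℝ) ^ 2 * ‖pl T p P‖ with hB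
  have hB0 : 0 ≤ B := by positivity
  have hright : ∀ w, ‖pl T p P + pl T p (sc (φ w) Q)‖ ≤ A + B * ‖(1 - φ) w‖ := by
    intro w
    have e : pl T p P + pl T p (sc (φ w) Q) =
        (pl T p P - pl T p (sc (φ w) P)) + pl T p (sc (φ w) (P + Q)) := by
      have : sc (φ w) (P + Q) = sc (φ w) P + sc (φ w) Q := by unfold sc; rw [add_comp]
      rw [this, pl_add]; abel
    rw [e]
    refine (norm_add_le _ _).trans ?_
    rw [norm_pl_sc (hφn w), pl_add, add_comm]
    have := norm_pl_sub_sc_le (T := T) (p := p) hP (hφn w)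
    gcongr
    exact this
  -- Minkowski
  let G : C(AddCircle T, ℂ) := ⟨fun w => ((‖(1 - φ) w‖ : ℝ) : ℂ), by fun_prop⟩
  have hGn : ‖tl p G‖ = ‖tl p (1 - φ)‖ := by
    have h : ‖tl p G‖ ^ p.toReal = ‖tl p (1 - φ)‖ ^ p.toReal := by
      rw [norm_tl_rpow hp1 hp', norm_tl_rpow hp1 hp']
      refine integral_congr_ae (Eventually.of_forall fun w => ?_)
      simp [G]
    have h1 := (Real.rpow_le_rpow_iff (norm_nonneg _) (norm_nonneg _) hq).1 h.le
    have h2 := (Real.rpow_le_rpow_iff (norm_nonneg _) (norm_nonneg _) hq).1 h.ge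
    exact le_antisymm h1 h2
  have h1n : ‖tl p (1 : C(AddCircle T, ℂ))‖ = 1 := by
    have : (1 : C(AddCircle T, ℂ)) = fourier 0 := by ext t; simp
    rw [this]; exact norm_fourierLp 0
  have hmink : ‖tl p ((A : ℂ) • (1 : C(AddCircle T, ℂ)) + (B : ℂ) • G)‖ ≤
      A + B * ‖tl p (1 - φ)‖ := by
    rw [tl, map_add, map_smul, map_smul]
    refine (norm_add_le _ _).trans ?_
    rw [norm_smul, norm_smul, Complex.norm_real, Complex.norm_real, Real.norm_eq_abs,
      Real.norm_eq_abs, abs_of_nonneg (norm_nonneg _), abs_of_nonneg hB0, h1n, hGn, mul_one]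
  have hint : ∫ w, (A + B * ‖(1 - φ) w‖) ^ p.toReal ∂(haarAddCircle (T := T)) ≤
      (A + B * ‖tl p (1 - φ)‖) ^ p.toReal := by
    have h3 := Real.rpow_le_rpow (norm_nonneg _) hmink hq.le
    rw [norm_tl_rpow hp1 hp'] at h3
    refine le_trans (le_of_eq ?_) h3
    refine integral_congr_ae (Eventually.of_forall fun w => ?_)
    simp only [G, ContinuousMap.add_apply, ContinuousMap.smul_apply, ContinuousMap.one_apply,
      ContinuousMap.coe_mk, smul_eq_mul, mul_one]
    rw [← Complex.ofReal_mul, ← Complex.ofReal_add, Complex.norm_real, Real.norm_eq_abs,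
      abs_of_nonneg (by positivity)]
  have hcl : Continuous fun w => ‖pl T p (sc (φ w) Q) - pl T p (sc a Q)‖ ^ p.toReal := by
    have e : (fun w => ‖pl T p (sc (φ w) Q) - pl T p (sc a Q)‖ ^ p.toReal) = fun w =>
      ‖(∑ k ∈ range (Q.natDegree + 1), (Q.coeff k * (φ w) ^ k) • fourierLp (T := T) p (k : ℤ))
        - pl T p (sc a Q)‖ ^ p.toReal := by
      funext w
      congr 3
      have : sc (φ w) Q = ∑ k ∈ range (Q.natDegree + 1), monomial k (Q.coeff k * (φ w) ^ k) := by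
        ext n
        rw [finsetSum_coeff]
        simp only [coeff_monomial]
        rw [Finset.sum_ite_eq']
        have h2 : (sc (φ w) Q).coeff n = Q.coeff n * (φ w) ^ n := by
          unfold sc; rw [comp_C_mul_X_coeff]
        rw [h2]
        split_ifs with h
        · rfl
        · rw [mem_range, not_lt] at h
          rw [coeff_eq_zero_of_natDegree_lt (by omega)]; ring
      rw [this, pl_sum]
      simp only [pl_monomial]
    rw [e]
    refine Continuous.rpow_const (Continuous.norm (Continuous.sub ?_ continuous_const))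
      (fun _ => Or.inr hq.le)
    refine continuous_finsetSum _ fun k _ => ?_
    exact (continuous_const.mul (φ.continuous.pow k)).smul continuous_const
  have hcr : Continuous fun w => ‖pl T p P + pl T p (sc (φ w) Q)‖ ^ p.toReal := by
    have e : (fun w => ‖pl T p P + pl T p (sc (φ w) Q)‖ ^ p.toReal) = fun w =>
      ‖pl T p P +
        (∑ k ∈ range (Q.natDegree + 1), (Q.coeff k * (φ w) ^ k) • fourierLp (T := T) p (k : ℤ))‖
          ^ p.toReal := by
      funext w
      congr 3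
      have : sc (φ w) Q = ∑ k ∈ range (Q.natDegree + 1), monomial k (Q.coeff k * (φ w) ^ k) := by
        ext n
        rw [finsetSum_coeff]
        simp only [coeff_monomial]
        rw [Finset.sum_ite_eq']
        have h2 : (sc (φ w) Q).coeff n = Q.coeff n * (φ w) ^ n := by
          unfold sc; rw [comp_C_mul_X_coeff]
        rw [h2]
        split_ifs with h
        · rfl
        · rw [mem_range, not_lt] at h
          rw [coeff_eq_zero_of_natDegree_lt (by omega)]; ring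
      rw [this, pl_sum]
      simp only [pl_monomial]
    rw [e]
    refine Continuous.rpow_const (Continuous.norm (Continuous.add continuous_const ?_))
      (fun _ => Or.inr hq.le)
    refine continuous_finsetSum _ fun k _ => ?_
    exact (continuous_const.mul (φ.continuous.pow k)).smul continuous_const
  have hfin : ((1 - a ^ L) * ‖pl T p Q‖) ^ p.toReal ≤
      (β * (A + B * ‖tl p (1 - φ)‖)) ^ p.toReal := by
    calc ((1 - a ^ L) * ‖pl T p Q‖) ^ p.toReal
        = ∫ w : AddCircle T, ((1 - a ^ L) * ‖pl T p Q‖) ^ p.toReal ∂(haarAddCircle (T := T)) := by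
          simp
      _ ≤ ∫ w, ‖pl T p (sc (φ w) Q) - pl T p (sc a Q)‖ ^ p.toReal ∂haarAddCircle :=
          integral_mono (integrable_const _) (integrable_cont hcl) hleft
      _ ≤ _ := h1
      _ ≤ β ^ p.toReal * ∫ w, (A + B * ‖(1 - φ) w‖) ^ p.toReal ∂(haarAddCircle (T := T)) := by
          gcongr
          · exact integrable_cont hcr
          · exact integrable_cont (Continuous.rpow_const (by fun_prop) (fun _ => Or.inr hq.le))
          · intro w
            exact Real.rpow_le_rpow (norm_nonneg _) (hright w) hq.le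
      _ ≤ β ^ p.toReal * (A + B * ‖tl p (1 - φ)‖) ^ p.toReal := by gcongr
      _ = _ := by rw [Real.mul_rpow hβ0 (by positivity)]
  exact (Real.rpow_le_rpow_iff (mul_nonneg (by linarith) (norm_nonneg _)) (by positivity) hq).1 hfin

/-- The localisation lemma. -/
theorem localisation (hp1 : 1 < p) (hp' : p ≠ ⊤) {β : ℝ} (hβ0 : 0 ≤ β) (hβ : BoundsDisc T p β)
    (N : ℕ) {ε : ℝ} (hε : 0 < ε) : ∃ L : ℕ, ∀ P R : ℂ[X], P.natDegree < N →
      ‖pl T p (X ^ L * R)‖ ≤ β * ‖pl T p P + pl T p (X ^ L * R)‖ +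
        ε * (‖pl T p P‖ + ‖pl T p (X ^ L * R)‖) := by
  set κ : ℝ := ε / (β * (N : ℝ) ^ 2 + 1) with hκ
  have hden : 0 < β * (N : ℝ) ^ 2 + 1 := by positivity
  have hκpos : 0 < κ := by positivity
  obtain ⟨a, φ, ha0, ha1, hφ, hφm, hφn, hφκ⟩ := exists_phi (T := T) hp1 hp' hκpos
  obtain ⟨L, hL⟩ := exists_pow_lt_of_lt_one hε ha1
  refine ⟨L, fun P R hP => ?_⟩
  have h := key_ineq hp1 hp' hβ0 hβ hφ ha0 ha1 hφm hφn hP L R
  have h2 : β * ((N : ℝ) ^ 2 * ‖pl T p P‖ * ‖tl p (1 - φ)‖) ≤ ε * ‖pl T p P‖ := by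
    calc β * ((N : ℝ) ^ 2 * ‖pl T p P‖ * ‖tl p (1 - φ)‖) ≤
          β * ((N : ℝ) ^ 2 * ‖pl T p P‖ * κ) := by gcongr
      _ = (β * (N : ℝ) ^ 2 * κ) * ‖pl T p P‖ := by ring
      _ ≤ ε * ‖pl T p P‖ := by
          gcongr
          rw [hκ, mul_div_assoc', div_le_iff₀ hden]
          nlinarith
  have h3 : a ^ L * ‖pl T p (X ^ L * R)‖ ≤ ε * ‖pl T p (X ^ L * R)‖ := by gcongr
  rw [mul_add] at h
  linarith

end Pool.Agent.Work.MP_d7cff0_an
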