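import Mathlib
import Pool.Agent.Work.MP_d7cff0_an.Abstract
import Pool.Agent.Work.MP_d7cff0_an.Local
import Pool.Agent.Work.MP_d7cff0_an.Defs

/-!
# The Hardy space: Fejer operators, backward shift, upper bound
-/

namespace Pool.Agent.Work.MP_d7cff0_an

open MeasureTheory AddCircle Filter Topology Finset Polynomial
open scoped ENNReal

variable {T : ℝ} [hT : Fact (0 < T)] {p : ℝ≥0∞} [hp : Fact (1 ≤ p)]

lemma mem_hardy {f : LpC T p} : f ∈ hardy T p ↔ ∀ n : ℤ, n < 0 → coef n f = 0 := Iff.rfl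

lemma isClosed_hardy : IsClosed (hardy T p : Set (LpC T p)) := by
  have : (hardy T p : Set (LpC T p)) = ⋂ n : ℤ, ⋂ (_ : n < 0), {f | coef n f = 0} := by
    ext f
    simp only [SetLike.mem_coe, mem_hardy, Set.mem_iInter, Set.mem_ofPred_eq]
  rw [this]
  exact isClosed_iInter fun n => isClosed_iInter fun _ =>
    isClosed_eq (coef n).continuous continuous_const

lemma pl_mem (P : ℂ[X]) : pl T p P ∈ hardy T p := by
  rw [mem_hardy]
  intro n hn
  rw [coef_tl_pc, if_neg (by omega)]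

lemma tl_mem {F : C(AddCircle T, ℂ)} (hF : F ∈ discAlg T) : tl p F ∈ hardy T p := by
  rw [mem_hardy]
  intro n hn
  exact coef_neg_of_mem hF hn

lemma Fej_mem (N : ℕ) {f : LpC T p} (hf : f ∈ hardy T p) : Fej N f ∈ hardy T p := by
  rw [mem_hardy] at hf ⊢
  intro n hn
  rw [coef_Fej, hf n hn, mul_zero]

/-- Fejer means of Hardy functions are polynomials. -/
lemma Fej_eq_pl (N : ℕ) {f : LpC T p} (hf : f ∈ hardy T p) :
    ∃ P : ℂ[X], Fej N f = pl T p P := by
  rw [mem_hardy] at hf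
  refine ⟨∑ j ∈ range N, ∑ k ∈ range N, if k ≤ j then
    monomial (j - k) (((1 / N : ℝ) : ℂ) * coef ((j : ℤ) - k) f) else 0, ?_⟩
  rw [Fej_apply, pl_sum, Finset.smul_sum]
  refine sum_congr rfl fun j _ => ?_
  rw [pl_sum, Finset.smul_sum]
  refine sum_congr rfl fun k _ => ?_
  split_ifs with h
  · rw [pl_monomial, smul_smul]
    congr 2
    push_cast [h]; ring
  · rw [hf _ (by omega)]
    simp [pl, pc, tl]

/-- The Fejer operators on the Hardy space. -/
noncomputable def FejH (N : ℕ) : hardy T p →L[ℂ] hardy T p :=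
  ((Fej N).comp (hardy T p).subtypeL).codRestrict (hardy T p) (fun f => Fej_mem N f.2)

lemma coe_FejH (N : ℕ) (f : hardy T p) : (FejH N f : LpC T p) = Fej N f := rfl

/-- The low-pass structure on the Hardy space. -/
noncomputable def hardyLP (hp' : p ≠ ⊤) : LowPass (hardy T p) where
  F := FejH
  norm_le := fun N u => norm_Fej_le hp' N (u : LpC T p)
  cpt := fun N => by
    have h := ((Fej_compact (T := T) (p := p) N).comp_clm (hardy T p).subtypeL).codRestrict
      (f := (Fej N).comp (hardy T p).subtypeL) (V := hardy T p)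
      (fun f => Fej_mem N f.2) isClosed_hardy
    exact h
  comp := fun N ε hε => by
    obtain ⟨N₁, hN₁⟩ := exists_nat_gt ((N : ℝ) ^ 2 / ε)
    refine ⟨N₁ + 1, fun N' hN' u => ?_⟩
    have h1 : 0 < N' := by omega
    have h2 := norm_Fej_sub_le h1 N (u : LpC T p)
    have h3 : ‖FejH N (FejH N' u) - FejH N u‖ = ‖Fej N (Fej N' (u : LpC T p) - (u : LpC T p))‖ := by
      rw [map_sub]; rfl
    rw [h3]
    refine h2.trans ?_
    have h4 : (N₁ : ℝ) ≤ N' := by exact_mod_cast (by omega : N₁ ≤ N')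
    have h5 : (0 : ℝ) < N' := by exact_mod_cast h1
    have h6 : (N : ℝ) ^ 2 / N' ≤ ε := by
      rw [div_le_iff₀ h5]
      rw [div_lt_iff₀ hε] at hN₁
      nlinarith
    exact mul_le_mul_of_nonneg_right h6 (norm_nonneg _)
  lim := fun u => by
    rw [tendsto_subtype_rng]
    exact tendsto_Fej hp' (u : LpC T p)

lemma hardyLP_F (hp' : p ≠ ⊤) (N : ℕ) : (hardyLP (T := T) hp').F N = FejH N := rfl

lemma uc_hardy (hp1 : 1 < p) (hp' : p ≠ ⊤) : UC (hardy T p) := by
  intro δ hδ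
  obtain ⟨δ', h, H⟩ := uc_Lp (μ := haarAddCircle (T := T)) hp1 hp' δ hδ
  exact ⟨δ', h, fun x y hx hy hxy => H x y hx hy hxy⟩

/-- Closed properties of polynomials hold on the Hardy space. -/
lemma hardy_induction (hp' : p ≠ ⊤) {S : Set (LpC T p)} (hS : IsClosed S)
    (h : ∀ P : ℂ[X], pl T p P ∈ S) {f : LpC T p} (hf : f ∈ hardy T p) : f ∈ S := by
  refine hS.mem_of_tendsto (tendsto_Fej hp' f) (Eventually.of_forall fun N => ?_)
  obtain ⟨P, hP⟩ := Fej_eq_pl N hf
  rw [hP]; exact h P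

/-- The Fejer multiplier on polynomials. -/
noncomputable def fp (N : ℕ) (P : ℂ[X]) : ℂ[X] :=
  ∑ k ∈ range N, monomial k ((cN N k : ℂ) * P.coeff k)

lemma fp_coeff (N : ℕ) (P : ℂ[X]) (k : ℕ) : (fp N P).coeff k = (cN N k : ℂ) * P.coeff k := by
  unfold fp
  rw [finsetSum_coeff]
  simp only [coeff_monomial]
  rw [Finset.sum_ite_eq']
  split_ifs with h
  · rfl
  · rw [mem_range, not_lt] at h
    rw [cN_eq_zero]
    · simp
    · rw [Nat.abs_cast]; exact_mod_cast h

/-- An element of `L^p` is determined by its Fourier coefficients. -/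
lemma ext_coef (hp' : p ≠ ⊤) {f g : LpC T p} (h : ∀ n, coef n f = coef n g) : f = g := by
  refine tendsto_nhds_unique (tendsto_Fej hp' f) ?_
  have : (fun N => Fej N f) = fun N => Fej N g := by
    funext N
    rw [Fej_apply, Fej_apply]
    simp only [h]
  rw [this]
  exact tendsto_Fej hp' g

lemma Fej_pl (hp' : p ≠ ⊤) (N : ℕ) (P : ℂ[X]) : Fej N (pl T p P) = pl T p (fp N P) := by
  refine ext_coef hp' fun n => ?_
  rw [coef_Fej, coef_tl_pc, coef_tl_pc]
  split_ifs with h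
  · rw [fp_coeff]
    congr 2
    rw [Int.toNat_of_nonneg h]
  · simp

lemma fp_natDegree (N : ℕ) (P : ℂ[X]) : (fp N P).natDegree < N + 1 := by
  rw [Nat.lt_succ_iff]
  rw [natDegree_le_iff_coeff_eq_zero]
  intro k hk
  rw [fp_coeff, cN_eq_zero]
  · simp
  · rw [Nat.abs_cast]; exact_mod_cast hk.le

/-- Splitting a polynomial. -/
lemma split_poly (L : ℕ) (D : ℂ[X]) : ∃ R : ℂ[X],
    D = (∑ k ∈ range L, monomial k (D.coeff k)) + X ^ L * R := by
  have h : X ^ L ∣ D - ∑ k ∈ range L, monomial k (D.coeff k) := by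
    rw [X_pow_dvd_iff]
    intro d hd
    rw [coeff_sub, finsetSum_coeff]
    simp only [coeff_monomial]
    rw [Finset.sum_ite_eq', if_pos (mem_range.2 hd), sub_self]
  obtain ⟨R, hR⟩ := h
  exact ⟨R, by rw [← hR]; ring⟩

/-- The constant function one. -/
noncomputable abbrev one' (T : ℝ) [Fact (0 < T)] (p : ℝ≥0∞) [Fact (1 ≤ p)] : LpC T p :=
  fourierLp p 0

lemma tl_one : tl p (1 : C(AddCircle T, ℂ)) = one' T p := by
  have : (1 : C(AddCircle T, ℂ)) = fourier 0 := by ext t; simp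
  rw [this]

/-- `β` bounds `f ↦ f - f^(0)` on the Hardy space. -/
def BoundsH (T : ℝ) [Fact (0 < T)] (p : ℝ≥0∞) [Fact (1 ≤ p)] (β : ℝ) : Prop :=
  ∀ f ∈ hardy T p, ‖f - coef 0 f • one' T p‖ ≤ β * ‖f‖

lemma BoundsH.disc {β : ℝ} (h : BoundsH T p β) : BoundsDisc T p β := by
  intro F hF
  have := h _ (tl_mem hF)
  rw [tl, map_sub, map_smul]
  rw [mean_eq_coef (p := p)]
  rw [← tl, ← tl, tl_one]
  exact this

/-- `BoundsH` may be tested on polynomials. -/
lemma BoundsH.of_pl (hp' : p ≠ ⊤) {β : ℝ}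
    (h : ∀ P : ℂ[X], ‖pl T p P - P.eval 0 • one' T p‖ ≤ β * ‖pl T p P‖) : BoundsH T p β := by
  intro f hf
  refine hardy_induction (S := {f : LpC T p | ‖f - coef 0 f • one' T p‖ ≤ β * ‖f‖}) hp' ?_ ?_ hf
  · refine isClosed_le ?_ (continuous_const.mul continuous_norm)
    exact (continuous_id.sub ((coef 0).continuous.smul continuous_const)).norm
  · intro P
    rw [Set.mem_ofPred_eq]
    have : coef 0 (pl T p P) = P.eval 0 := by
      rw [coef_tl_pc, if_pos le_rfl, Int.toNat_zero, Polynomial.coeff_zero_eq_eval_zero]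
    rw [this]
    exact h P

/-- The local inequality for the Fejer operators. -/
theorem hloc_hardy (hp1 : 1 < p) (hp' : p ≠ ⊤) {β : ℝ} (hβ0 : 0 ≤ β) (hβ : BoundsDisc T p β)
    (N : ℕ) {ε : ℝ} (hε : 0 < ε) : ∃ N₁, ∀ N', N₁ ≤ N' → ∀ u : hardy T p,
      ‖u - FejH N' u‖ ≤ β * ‖u - (FejH N' u - FejH N u)‖ + ε * ‖u‖ := by
  set ε' : ℝ := min 1 (ε / 6) with hε'
  have hε'pos : 0 < ε' := by positivity
  have hε'1 : ε' ≤ 1 := min_le_left _ _
  have hε'2 : ε' ≤ ε / 6 := min_le_right _ _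
  obtain ⟨L, hL⟩ := localisation (T := T) hp1 hp' hβ0 hβ (N + 1) hε'pos
  obtain ⟨N₁, hN₁⟩ := exists_nat_gt (2 * (β + 2) * (L : ℝ) ^ 2 / ε)
  refine ⟨N₁ + 1, fun N' hN' => ?_⟩
  have hN'0 : 0 < N' := by omega
  have hN'R : (0 : ℝ) < N' := by exact_mod_cast hN'0
  have hN₁N' : (N₁ : ℝ) ≤ N' := by exact_mod_cast (by omega : N₁ ≤ N')
  -- polynomials
  have hpoly : ∀ P₀ : ℂ[X], ‖pl T p P₀ - Fej N' (pl T p P₀)‖ ≤
      β * ‖pl T p P₀ - (Fej N' (pl T p P₀) - Fej N (pl T p P₀))‖ + ε * ‖pl T p P₀‖ := by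
    intro P₀
    set u := pl T p P₀ with hu
    set D : ℂ[X] := P₀ - fp N' P₀ with hD
    obtain ⟨R, hR⟩ := split_poly L D
    set D₀ : ℂ[X] := ∑ k ∈ range L, monomial k (D.coeff k) with hD₀
    have hlow : ‖pl T p D₀‖ ≤ (L : ℝ) ^ 2 / N' * ‖u‖ := by
      rw [hD₀, pl_sum]
      refine (norm_sum_le _ _).trans ?_
      calc _ ≤ ∑ k ∈ range L, ((L : ℝ) / N' * ‖u‖) := by
            refine sum_le_sum fun k hk => ?_
            rw [norm_pl_monomial, hD, coeff_sub, fp_coeff]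
            have e : P₀.coeff k - (cN N' k : ℂ) * P₀.coeff k =
              ((1 - cN N' k : ℝ) : ℂ) * P₀.coeff k := by push_cast; ring
            rw [e, norm_mul, Complex.norm_real, Real.norm_eq_abs,
              abs_of_nonneg (by linarith [cN_le_one N' k])]
            have h1 := one_sub_cN_le hN'0 (k : ℤ)
            have h2 := norm_coeff_le (T := T) (p := p) P₀ k
            have h3 : |(((k : ℕ) : ℤ) : ℝ)| ≤ L := by
              rw [Int.cast_natCast, Nat.abs_cast]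
              exact_mod_cast (mem_range.1 hk).le
            have h4 : |(((k : ℕ) : ℤ) : ℝ)| / N' ≤ (L : ℝ) / N' := by gcongr
            exact mul_le_mul (h1.trans h4) h2 (norm_nonneg _) (by positivity)
        _ = _ := by simp; ring
    set Q := pl T p (X ^ L * R) with hQ
    set W := pl T p (fp N P₀) with hW
    have e1 : u - Fej N' u = pl T p D₀ + Q := by
      rw [hu, Fej_pl hp', ← pl_sub, ← hD, hR, pl_add]
    have e2 : u - (Fej N' u - Fej N u) = pl T p D₀ + (W + Q) := by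
      have : u - (Fej N' u - Fej N u) = (u - Fej N' u) + Fej N u := by abel
      rw [this, e1, hu, Fej_pl hp']; abel
    have hloc := hL (fp N P₀) R (fp_natDegree N P₀)
    have hWn : ‖W‖ ≤ ‖u‖ := by
      rw [hW, ← Fej_pl hp']
      exact norm_Fej_le hp' N _
    have hF := norm_Fej_le hp' N' u
    have hQn : ‖Q‖ ≤ 2 * ‖u‖ + ‖pl T p D₀‖ := by
      have : Q = (u - Fej N' u) - pl T p D₀ := by rw [e1]; abel
      rw [this]
      refine (norm_sub_le _ _).trans ?_
      have := norm_sub_le u (Fej N' u)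
      linarith
    rw [e1, e2]
    have h1 : ‖pl T p D₀ + Q‖ ≤ ‖pl T p D₀‖ + ‖Q‖ := norm_add_le _ _
    have h2 : ‖W + Q‖ ≤ ‖pl T p D₀ + (W + Q)‖ + ‖pl T p D₀‖ := by
      have : W + Q = (pl T p D₀ + (W + Q)) - pl T p D₀ := by abel
      calc ‖W + Q‖ = ‖(pl T p D₀ + (W + Q)) - pl T p D₀‖ := by rw [← this]
        _ ≤ _ := norm_sub_le _ _
    set d := ‖pl T p D₀‖ with hd
    have hd0 : 0 ≤ d := norm_nonneg _
    have hu0 : 0 ≤ ‖u‖ := norm_nonneg _
    have h3 : ‖pl T p D₀ + Q‖ ≤ d + (β * (‖pl T p D₀ + (W + Q)‖ + d) +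
        ε' * (‖u‖ + (2 * ‖u‖ + d))) := by
      refine h1.trans ?_
      refine add_le_add le_rfl (hloc.trans ?_)
      gcongr
    have h4 : (L : ℝ) ^ 2 / N' * (β + 2) ≤ ε / 2 := by
      rw [div_mul_eq_mul_div, div_le_iff₀ hN'R]
      rw [div_lt_iff₀ hε] at hN₁
      nlinarith
    have h5 : (1 + β + ε') * d ≤ (ε / 2) * ‖u‖ := by
      calc (1 + β + ε') * d ≤ (β + 2) * ((L : ℝ) ^ 2 / N' * ‖u‖) :=
            mul_le_mul (by linarith) hlow hd0 (by linarith)
        _ = ((L : ℝ) ^ 2 / N' * (β + 2)) * ‖u‖ := by ring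
        _ ≤ _ := by gcongr
    nlinarith
  intro u
  have := hardy_induction (S := {f : LpC T p | ‖f - Fej N' f‖ ≤
      β * ‖f - (Fej N' f - Fej N f)‖ + ε * ‖f‖}) hp' ?_ hpoly u.2
  · exact this
  · refine isClosed_le ?_ ?_
    · exact (continuous_id.sub (Fej N').continuous).norm
    · exact (continuous_const.mul (continuous_id.sub ((Fej N').continuous.sub
        (Fej N).continuous)).norm).add (continuous_const.mul continuous_norm)

/-- Upper bound. -/
theorem dcap_of_bounds (hp1 : 1 < p) (hp' : p ≠ ⊤) {β : ℝ} (hβ0 : 0 ≤ β) (hβ : BoundsH T p β)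
    {M : ℝ} (hM : β < M) : DCAPWith (hardy T p) M := by
  intro ε hε G
  obtain ⟨S, hS, hSM, hSG⟩ := (hardyLP (T := T) hp').exists_compact (uc_hardy hp1 hp') hβ0
    (fun N ε hε => hloc_hardy hp1 hp' hβ0 hβ.disc N hε) hM (ε := ε / 2) (by positivity) G
  refine ⟨S, hS, ?_, fun z hz => ?_⟩
  · exact ContinuousLinearMap.opNorm_le_bound _ (hβ0.trans hM.le) hSM
  · refine lt_of_le_of_lt (ContinuousLinearMap.opNorm_le_bound _ (by positivity : 0 ≤ ε / 2)
      fun u => ?_) (by linarith)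
    have := hSG z hz u
    rw [map_sub] at this
    exact this

end Pool.Agent.Work.MP_d7cff0_an
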