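import Mathlib
import Pool.Agent.Work.MP_d7cff0_an.Hardy

/-!
# Backward shift and the lower bound
-/

namespace Pool.Agent.Work.MP_d7cff0_an

open MeasureTheory AddCircle Filter Topology Finset Polynomial
open scoped ENNReal

variable {T : ℝ} [hT : Fact (0 < T)] {p : ℝ≥0∞} [hp : Fact (1 ≤ p)]

/-! ### Multiplication by monomials -/

omit hp in
lemma memLp_mulF (m : ℤ) (f : LpC T p) :
    MemLp (fun t => fourier m t * f t) p (haarAddCircle (T := T)) := by
  refine (Lp.memLp f).of_le ?_ ?_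
  · exact ((map_continuous (fourier m)).aestronglyMeasurable).mul (Lp.aestronglyMeasurable f)
  · refine Eventually.of_forall fun t => ?_
    rw [norm_mul, fourier_apply, Circle.norm_coe, one_mul]

/-- Multiplication by `fourier m`. -/
noncomputable def mulF (m : ℤ) : LpC T p →ₗᵢ[ℂ] LpC T p where
  toFun f := (memLp_mulF m f).toLp
  map_add' f g := by
    apply Lp.ext
    refine (MemLp.coeFn_toLp _).trans ?_
    refine EventuallyEq.trans ?_ (Lp.coeFn_add _ _).symm
    filter_upwards [Lp.coeFn_add f g, (memLp_mulF m f).coeFn_toLp,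
      (memLp_mulF m g).coeFn_toLp] with t h1 h2 h3
    rw [Pi.add_apply, h2, h3, h1, Pi.add_apply, mul_add]
  map_smul' c f := by
    apply Lp.ext
    refine (MemLp.coeFn_toLp _).trans ?_
    refine EventuallyEq.trans ?_ (Lp.coeFn_smul _ _).symm
    filter_upwards [Lp.coeFn_smul c f, (memLp_mulF m f).coeFn_toLp] with t h1 h2
    rw [RingHom.id_apply, Pi.smul_apply, h2, h1, Pi.smul_apply, smul_eq_mul, smul_eq_mul]
    ring
  norm_map' f := by
    change ‖(memLp_mulF m f).toLp‖ = ‖f‖
    rw [Lp.norm_def, Lp.norm_def, eLpNorm_congr_ae (MemLp.coeFn_toLp _)]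
    congr 1
    refine eLpNorm_congr_norm_ae (Eventually.of_forall fun t => ?_)
    rw [norm_mul, fourier_apply, Circle.norm_coe, one_mul]

lemma coef_mulF (m n : ℤ) (f : LpC T p) : coef n (mulF m f) = coef (n - m) f := by
  rw [coef_apply, coef_apply]
  change fourierCoeff (((memLp_mulF m f).toLp : LpC T p) : AddCircle T → ℂ) n = _
  rw [fourierCoeff_congr_ae (memLp_mulF m f).coeFn_toLp]
  unfold fourierCoeff
  refine integral_congr_ae (Eventually.of_forall fun t => ?_)
  simp only [smul_eq_mul]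
  rw [← mul_assoc, ← fourier_add]
  congr 3
  ring

/-! ### The backward shift -/

/-- The map `f ↦ f - f^(0)` on `L^p`. -/
noncomputable def Q0 : LpC T p →L[ℂ] LpC T p :=
  ContinuousLinearMap.id ℂ _ - (coef 0).smulRight (one' T p)

lemma Q0_apply (f : LpC T p) : Q0 f = f - coef 0 f • one' T p := rfl

lemma shift_mem {f : LpC T p} (hf : f ∈ hardy T p) : mulF (-1) (Q0 f) ∈ hardy T p := by
  rw [mem_hardy] at hf ⊢
  intro n hn
  rw [coef_mulF, Q0_apply, map_sub, map_smul, coef_fourierLp]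
  rcases eq_or_ne n (-1) with rfl | h
  · simp
  · rw [hf _ (by omega), if_neg (by omega)]; simp

/-- The backward shift. -/
noncomputable def bshift : hardy T p →L[ℂ] hardy T p :=
  (((mulF (-1)).toContinuousLinearMap.comp Q0).comp (hardy T p).subtypeL).codRestrict
    (hardy T p) (fun f => shift_mem f.2)

lemma coe_bshift (f : hardy T p) : (bshift f : LpC T p) = mulF (-1) (Q0 (f : LpC T p)) := rfl

lemma norm_bshift (f : hardy T p) :
    ‖bshift f‖ = ‖(f : LpC T p) - coef 0 (f : LpC T p) • one' T p‖ := by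
  have : ‖bshift f‖ = ‖mulF (-1) (Q0 (f : LpC T p))‖ := rfl
  rw [this, LinearIsometry.norm_map, Q0_apply]

/-- `B` shifts the coefficients. -/
def IsBackwardShift (B : hardy T p →L[ℂ] hardy T p) : Prop :=
  ∀ f n, hardyCoeff T p n (B f) = hardyCoeff T p (n + 1) f

lemma hardyCoeff_apply (n : ℕ) (f : hardy T p) :
    hardyCoeff T p n f = coef (n : ℤ) (f : LpC T p) := rfl

lemma isBackwardShift_bshift : IsBackwardShift (bshift (T := T) (p := p)) := by
  intro f n
  rw [hardyCoeff_apply, hardyCoeff_apply, coe_bshift, coef_mulF, Q0_apply, map_sub, map_smul,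
    coef_fourierLp, if_neg (by omega)]
  simp

lemma IsBackwardShift.eq (hp' : p ≠ ⊤) {B : hardy T p →L[ℂ] hardy T p}
    (hB : IsBackwardShift B) : B = bshift := by
  ext1 f
  apply Subtype.ext
  refine ext_coef hp' fun n => ?_
  by_cases hn : 0 ≤ n
  · obtain ⟨k, rfl⟩ := Int.eq_ofNat_of_zero_le hn
    exact (hB f k).trans (isBackwardShift_bshift f k).symm
  · rw [mem_hardy.1 (B f).2 n (by omega), mem_hardy.1 (bshift f).2 n (by omega)]

lemma boundsH_bshift : BoundsH T p ‖bshift (T := T) (p := p)‖ := by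
  intro f hf
  rw [← norm_bshift ⟨f, hf⟩]
  exact (bshift (T := T) (p := p)).le_opNorm ⟨f, hf⟩

lemma norm_bshift_le {β : ℝ} (hβ : 0 ≤ β) (h : BoundsH T p β) :
    ‖bshift (T := T) (p := p)‖ ≤ β := by
  refine ContinuousLinearMap.opNorm_le_bound _ hβ fun f => ?_
  rw [norm_bshift]
  exact h _ f.2

/-! ### Weakly null sequences and compact operators -/

lemma tendsto_of_compact {E : Type*} [NormedAddCommGroup E] [NormedSpace ℂ E]
    {S : E →L[ℂ] E} (hS : IsCompactOperator S) {h : ℕ → E} {C : ℝ} (hb : ∀ n, ‖h n‖ ≤ C)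
    (hw : ∀ z : StrongDual ℂ E, Tendsto (fun n => z (h n)) atTop (𝓝 0)) :
    Tendsto (fun n => S (h n)) atTop (𝓝 0) := by
  have hK := hS.isCompact_closure_image_closedBall C
  refine hK.tendsto_nhds_of_unique_mapClusterPt (Eventually.of_forall fun n => ?_) ?_
  · refine subset_closure ⟨h n, ?_, rfl⟩
    simpa using hb n
  · intro x _ hx
    refine SeparatingDual.eq_zero_of_forall_dual_eq_zero (R := ℂ) fun z => ?_
    have h1 : MapClusterPt (z x) atTop (fun n => z (S (h n))) :=
      hx.continuousAt_comp z.continuous.continuousAt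
    have h2 : Tendsto (fun n => z (S (h n))) atTop (𝓝 0) := hw (z.comp S)
    by_contra hne
    have h3 : Disjoint (𝓝 (z x)) (𝓝 (0 : ℂ)) := disjoint_nhds_nhds.2 hne
    have h4 : (𝓝 (z x) ⊓ map (fun n => z (S (h n))) atTop).NeBot := h1
    have h5 : 𝓝 (z x) ⊓ map (fun n => z (S (h n))) atTop ≤ 𝓝 (z x) ⊓ 𝓝 0 :=
      inf_le_inf_left _ h2
    rw [h3.eq_bot] at h5
    exact h4.ne (le_bot_iff.1 h5)

/-! ### Averaging over roots of unity -/

/-- Averaging over the rotations by `n`-th roots of unity. -/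
noncomputable def av (n : ℕ) : LpC T p →L[ℂ] LpC T p :=
  ((1 / n : ℝ) : ℂ) • ∑ j ∈ range n,
    (tr (j • ((T / n : ℝ) : AddCircle T))).toContinuousLinearMap

lemma av_apply (n : ℕ) (f : LpC T p) : av n f = ((1 / n : ℝ) : ℂ) • ∑ j ∈ range n,
    tr (j • ((T / n : ℝ) : AddCircle T)) f := by
  simp [av]

lemma norm_av_le (n : ℕ) (f : LpC T p) : ‖av n f‖ ≤ ‖f‖ := by
  rcases Nat.eq_zero_or_pos n with rfl | hn
  · simp [av_apply]
  have hnR : (0 : ℝ) < n := by exact_mod_cast hn
  rw [av_apply, norm_smul, Complex.norm_real, Real.norm_eq_abs, abs_of_pos (by positivity)]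
  have : ‖∑ j ∈ range n, tr (j • ((T / n : ℝ) : AddCircle T)) f‖ ≤ n * ‖f‖ := by
    refine (norm_sum_le _ _).trans ?_
    simp
  calc _ ≤ (1 / n : ℝ) * (n * ‖f‖) := by gcongr
    _ = _ := by field_simp

omit hT in
lemma fourier_nsmul (m : ℤ) (j : ℕ) (s : AddCircle T) : fourier m (j • s) = (fourier m s) ^ j := by
  induction j with
  | zero => simp
  | succ j ih => rw [succ_nsmul, fourier_add_arg, ih, pow_succ, mul_comm]

lemma av_fourierLp_eq {n : ℕ} (hn : 0 < n) {m : ℤ} (h : (n : ℤ) ∣ m) :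
    av n (fourierLp (T := T) p m) = fourierLp p m := by
  have hnC : (n : ℂ) ≠ 0 := by exact_mod_cast hn.ne'
  have h1 : fourier m ((T / n : ℝ) : AddCircle T) = 1 := by
    rw [fourier_apply]
    have : m • ((T / n : ℝ) : AddCircle T) = 0 := by
      rw [← addOrderOf_dvd_iff_zsmul_eq_zero, addOrderOf_period_div hn]
      exact h
    rw [this]; simp
  rw [av_apply]
  simp only [tr_fourierLp, fourier_nsmul, h1, one_pow, one_smul, sum_const, card_range]
  rw [← Nat.cast_smul_eq_nsmul ℂ, smul_smul]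
  push_cast
  rw [one_div, inv_mul_cancel₀ hnC, one_smul]

lemma av_fourierLp_zero {n : ℕ} (hn : 0 < n) {m : ℤ} (h : ¬ (n : ℤ) ∣ m) :
    av n (fourierLp (T := T) p m) = 0 := by
  set w : ℂ := fourier m ((T / n : ℝ) : AddCircle T) with hw
  have hw1 : w ≠ 1 := by
    intro h1
    apply h
    rw [hw, fourier_apply] at h1
    have h2 : toCircle (m • ((T / n : ℝ) : AddCircle T)) = toCircle (0 : AddCircle T) := by
      apply Subtype.ext
      rw [h1]; simp
    have h3 := injective_toCircle hT.out.ne' h2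
    rw [← addOrderOf_dvd_iff_zsmul_eq_zero, addOrderOf_period_div hn] at h3
    exact h3
  have hwn : w ^ n = 1 := by
    rw [hw, ← fourier_nsmul, fourier_apply]
    have h4 : n • ((T / n : ℝ) : AddCircle T) = 0 := by
      have := addOrderOf_nsmul_eq_zero ((T / n : ℝ) : AddCircle T)
      rwa [addOrderOf_period_div hn] at this
    rw [h4]; simp
  rw [av_apply]
  simp only [tr_fourierLp, fourier_nsmul]
  rw [← Finset.sum_smul]
  have : ∑ j ∈ range n, w ^ j = 0 := by
    have h5 := geom_sum_mul w n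
    rw [hwn, sub_self] at h5
    rcases mul_eq_zero.1 h5 with h6 | h6
    · exact h6
    · exact absurd (sub_eq_zero.1 h6) hw1
  rw [this, zero_smul, smul_zero]

lemma tendsto_av (hp' : p ≠ ⊤) (f : LpC T p) :
    Tendsto (fun n => av n f) atTop (𝓝 (coef 0 f • one' T p)) := by
  have htrig : ∀ g ∈ trig T p, Tendsto (fun n => av n g) atTop (𝓝 (coef 0 g • one' T p)) := by
    intro g hg
    refine Submodule.span_induction
      (p := fun g _ => Tendsto (fun n => av n g) atTop (𝓝 (coef 0 g • one' T p))) ?_ ?_ ?_ ?_ hg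
    · rintro _ ⟨m, rfl⟩
      rw [coef_fourierLp]
      by_cases hm : m = 0
      · subst hm
        rw [if_pos rfl, one_smul]
        refine tendsto_const_nhds.congr' ?_
        filter_upwards [eventually_gt_atTop 0] with n hn
        rw [av_fourierLp_eq hn (dvd_zero _)]
      · rw [if_neg (fun h => hm h.symm), zero_smul]
        refine tendsto_const_nhds.congr' ?_
        filter_upwards [eventually_gt_atTop m.natAbs] with n hn
        rw [av_fourierLp_zero (by omega)]
        intro hd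
        have := Int.natAbs_dvd_natAbs.2 hd
        rw [Int.natAbs_natCast] at this
        have := Nat.le_of_dvd (Int.natAbs_pos.2 hm) this
        omega
    · simp
    · intro x y _ _ hx hy
      simpa [add_smul] using hx.add hy
    · intro c x _ hx
      simpa [mul_smul] using hx.const_smul c
  rw [Metric.tendsto_atTop]
  intro ε hε
  obtain ⟨g, hg, hfg⟩ := Metric.mem_closure_iff.1 ((trig_dense (T := T) hp') f) (ε / 3)
    (by positivity)
  obtain ⟨N₀, hN₀⟩ := (Metric.tendsto_atTop.1 (htrig g hg)) (ε / 3) (by positivity)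
  refine ⟨N₀, fun N hN => ?_⟩
  have h1 := hN₀ N hN
  rw [dist_eq_norm] at h1 hfg ⊢
  have h2 : ‖av N (f - g)‖ ≤ ‖f - g‖ := norm_av_le N _
  have h3 : ‖coef 0 (f - g) • one' T p‖ ≤ ‖f - g‖ := by
    rw [norm_smul, norm_fourierLp, mul_one]
    exact norm_coef_le _ _
  have e : av N f - coef 0 f • one' T p =
      av N (f - g) + (av N g - coef 0 g • one' T p) - coef 0 (f - g) • one' T p := by
    rw [map_sub, map_sub, sub_smul]; abel
  rw [e]
  calc _ ≤ ‖av N (f - g)‖ + ‖av N g - coef 0 g • one' T p‖ + ‖coef 0 (f - g) • one' T p‖ :=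
        (norm_sub_le _ _).trans (by gcongr; exact norm_add_le _ _)
    _ < ε := by linarith

/-! ### Dilation -/

/-- `P(z^n)`. -/
noncomputable def dil (n : ℕ) (P : ℂ[X]) : ℂ[X] := P.comp (X ^ n)

lemma norm_pl_dil (hp1 : 1 < p) (hp' : p ≠ ⊤) {n : ℕ} (hn : 0 < n) (P : ℂ[X]) :
    ‖pl T p (dil n P)‖ = ‖pl T p P‖ := by
  have hq := toReal_pos' hp1 hp'
  have h : ‖pl T p (dil n P)‖ ^ p.toReal = ‖pl T p P‖ ^ p.toReal := by
    rw [norm_pl_rpow hp1 hp', norm_pl_rpow hp1 hp']
    have hmp : MeasurePreserving (fun t : AddCircle T => (n : ℤ) • t) haarAddCircle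
        haarAddCircle := Measure.measurePreserving_zsmul _ (by exact_mod_cast hn.ne')
    have e : ∀ t : AddCircle T, ‖(dil n P).eval (fourier 1 t)‖ ^ p.toReal =
        (fun s : AddCircle T => ‖P.eval (fourier 1 s)‖ ^ p.toReal) ((n : ℤ) • t) := by
      intro t
      simp only [dil, eval_comp, eval_pow, eval_X]
      rw [natCast_zsmul, fourier_nsmul]
    simp only [e]
    have hc : Continuous fun s : AddCircle T => ‖P.eval (fourier 1 s)‖ ^ p.toReal :=
      continuous_eval_pow hq.le (P.continuous.comp (by fun_prop))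
    rw [← integral_map hmp.measurable.aemeasurable hc.aestronglyMeasurable, hmp.map_eq]
  have h1 := (Real.rpow_le_rpow_iff (norm_nonneg _) (norm_nonneg _) hq).1 h.le
  have h2 := (Real.rpow_le_rpow_iff (norm_nonneg _) (norm_nonneg _) hq).1 h.ge
  exact le_antisymm h1 h2

lemma dil_eq_sum (n : ℕ) (P : ℂ[X]) :
    dil n P = ∑ k ∈ range (P.natDegree + 1), monomial (n * k) (P.coeff k) := by
  unfold dil
  rw [comp, eval₂_eq_sum_range]
  refine sum_congr rfl fun k _ => ?_
  rw [← pow_mul, C_mul_X_pow_eq_monomial]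

lemma av_dil {n : ℕ} (hn : 0 < n) (P : ℂ[X]) : av n (pl T p (dil n P)) = pl T p (dil n P) := by
  rw [dil_eq_sum, pl_sum, map_sum]
  refine sum_congr rfl fun k _ => ?_
  rw [pl_monomial, map_smul, av_fourierLp_eq hn]
  exact ⟨k, by push_cast; ring⟩

/-- The dilates of a mean-zero polynomial are weakly null. -/
lemma weak_dil (hp1 : 1 < p) (hp' : p ≠ ⊤) {H : ℂ[X]} (hH : H.eval 0 = 0)
    (z : StrongDual ℂ (hardy T p)) :
    Tendsto (fun n => z ⟨pl T p (dil n H), pl_mem _⟩) atTop (𝓝 0) := by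
  rw [Metric.tendsto_atTop]
  intro ε hε
  set c : ℝ := ε / (2 * (‖pl T p H‖ + 1)) with hc
  have hcpos : 0 < c := by positivity
  obtain ⟨N₀, hN₀⟩ := (hardyLP (T := T) hp').adjoint (uc_hardy hp1 hp') z hcpos
  refine ⟨N₀ + 1, fun n hn => ?_⟩
  have hn0 : 0 < n := by omega
  have h1 := hN₀ N₀ le_rfl ⟨pl T p (dil n H), pl_mem _⟩
  rw [hardyLP_F] at h1
  have h2 : FejH N₀ ⟨pl T p (dil n H), pl_mem _⟩ = 0 := by
    apply Subtype.ext
    rw [coe_FejH]
    refine ext_coef hp' fun m => ?_
    rw [coef_Fej, coef_tl_pc]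
    simp only [ZeroMemClass.coe_zero, map_zero, mul_eq_zero]
    by_cases hm : (N₀ : ℤ) ≤ |m|
    · left; rw [cN_eq_zero hm]; simp
    · right
      split_ifs with h0
      · rw [dil_eq_sum, finsetSum_coeff]
        refine sum_eq_zero fun k _ => ?_
        rw [coeff_monomial]
        split_ifs with hk
        · rcases Nat.eq_zero_or_pos k with rfl | hkpos
          · rw [Polynomial.coeff_zero_eq_eval_zero, hH]
          · exfalso
            have h3 : n ≤ n * k := Nat.le_mul_of_pos_right n hkpos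
            rw [abs_of_nonneg h0] at hm
            omega
        · rfl
      · rfl
  rw [h2, sub_zero] at h1
  rw [dist_zero_right]
  have h3 : ‖(⟨pl T p (dil n H), pl_mem _⟩ : hardy T p)‖ = ‖pl T p H‖ := norm_pl_dil hp1 hp' hn0 H
  rw [h3] at h1
  have hH0 : 0 ≤ ‖pl T p H‖ := norm_nonneg _
  have h4 : c * ‖pl T p H‖ ≤ ε / 2 := by
    rw [hc, div_mul_eq_mul_div, div_le_iff₀ (by positivity)]
    nlinarith
  linarith

/-- Lower bound. -/
theorem bounds_of_dcap (hp1 : 1 < p) (hp' : p ≠ ⊤) {M : ℝ} (hM : DCAPWith (hardy T p) M) :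
    BoundsH T p M := by
  refine BoundsH.of_pl hp' fun P => ?_
  set c : ℂ := P.eval 0 with hc
  set H : ℂ[X] := P - C c with hH
  have hH0 : H.eval 0 = 0 := by rw [hH]; simp [hc]
  have hPH : pl T p P = c • one' T p + pl T p H := by
    have : P = monomial 0 c + H := by rw [hH, monomial_zero_left]; ring
    rw [this, pl_add, pl_monomial]; simp
  have hgoal : ‖pl T p P - c • one' T p‖ = ‖pl T p H‖ := by
    rw [hPH]; congr 1; abel
  rw [hgoal]
  refine le_of_forall_pos_le_add fun ε hε => ?_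
  set ε' : ℝ := ε / (‖c‖ + 1) with hε'
  have hε'pos : 0 < ε' := by positivity
  -- the functional `f ↦ f^(0)` on the Hardy space
  let δ : StrongDual ℂ (hardy T p) := (coef 0).comp (hardy T p).subtypeL
  obtain ⟨S, hS, hSM, hSδ⟩ := hM ε' hε'pos {δ}
  have hδ := hSδ δ (Finset.mem_singleton_self _)
  let e : hardy T p := ⟨one' T p, by
    have := pl_mem (T := T) (p := p) (monomial 0 1)
    rw [pl_monomial, one_smul] at this
    exact this⟩
  have hen : ‖e‖ = 1 := norm_fourierLp 0
  have hδe : δ e = 1 := by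
    change coef 0 (fourierLp (T := T) p 0) = 1
    rw [coef_fourierLp]; simp
  have h1 : ‖1 - δ (S e)‖ ≤ ε' := by
    have h2 := (δ - δ.comp S).le_opNorm e
    rw [hen, mul_one] at h2
    have h3 : (δ - δ.comp S) e = 1 - δ (S e) := by
      rw [sub_apply, hδe]; rfl
    rw [h3] at h2
    exact h2.trans hδ.le
  let h : ℕ → hardy T p := fun n => ⟨pl T p (dil (n + 1) H), pl_mem _⟩
  have hhn : ∀ n, ‖h n‖ = ‖pl T p H‖ := fun n => norm_pl_dil hp1 hp' (Nat.succ_pos n) H
  have hSh : Tendsto (fun n => S (h n)) atTop (𝓝 0) := by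
    refine tendsto_of_compact hS (C := ‖pl T p H‖) (fun n => (hhn n).le) fun z => ?_
    exact (weak_dil hp1 hp' hH0 z).comp (tendsto_add_atTop_nat 1)
  have hSh' : Tendsto (fun n => ‖S (h n)‖) atTop (𝓝 0) := by
    have := hSh.norm
    rwa [norm_zero] at this
  have hav : Tendsto (fun n : ℕ => ‖av (n + 1) (S e : LpC T p) - one' T p‖) atTop
      (𝓝 ‖δ (S e) • one' T p - one' T p‖) := by
    have h2 := (tendsto_av hp' (S e : LpC T p)).comp (tendsto_add_atTop_nat 1)
    exact (h2.sub_const _).norm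
  have hineq : ∀ n : ℕ, ‖pl T p H‖ ≤ M * ‖pl T p P‖ +
      ‖c‖ * ‖av (n + 1) (S e : LpC T p) - one' T p‖ + ‖S (h n)‖ := by
    intro n
    have hn0 : 0 < n + 1 := Nat.succ_pos n
    -- the test vector
    set u : hardy T p := c • e + h n with hu
    have huP : (u : LpC T p) = pl T p (dil (n + 1) P) := by
      have e1 : dil (n + 1) P = monomial 0 c + dil (n + 1) H := by
        rw [hH, monomial_zero_left]
        unfold dil
        rw [sub_comp, C_comp]; ring
      rw [e1, pl_add, pl_monomial]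
      rfl
    have hun : ‖u‖ = ‖pl T p P‖ := by
      have : ‖u‖ = ‖(u : LpC T p)‖ := rfl
      rw [this, huP, norm_pl_dil hp1 hp' hn0]
    have h2 : ‖u - S u‖ ≤ M * ‖pl T p P‖ := by
      have h3 := (ContinuousLinearMap.id ℂ (hardy T p) - S).le_opNorm u
      rw [hun] at h3
      have h4 : (ContinuousLinearMap.id ℂ (hardy T p) - S) u = u - S u := rfl
      rw [h4] at h3
      exact h3.trans (by gcongr)
    have h3 : ‖av (n + 1) ((u : LpC T p) - (S u : LpC T p))‖ ≤ ‖u - S u‖ := norm_av_le _ _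
    have h4 : av (n + 1) ((u : LpC T p) - (S u : LpC T p)) =
        (h n : LpC T p) - c • (av (n + 1) (S e : LpC T p) - one' T p) -
          av (n + 1) (S (h n) : LpC T p) := by
      have e1 : av (n + 1) (u : LpC T p) = u := by
        rw [huP]; exact av_dil hn0 P
      have e2 : (S u : LpC T p) = c • (S e : LpC T p) + (S (h n) : LpC T p) := by
        rw [hu, map_add, map_smul]; rfl
      have e3 : (u : LpC T p) = c • one' T p + (h n : LpC T p) := rfl
      rw [map_sub, e1, e2, map_add, map_smul, e3, smul_sub]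
      abel
    have h5 : ‖(h n : LpC T p)‖ = ‖pl T p H‖ := hhn n
    have h6 : ‖av (n + 1) (S (h n) : LpC T p)‖ ≤ ‖S (h n)‖ := norm_av_le _ _
    have h7 : ‖(h n : LpC T p)‖ ≤ ‖av (n + 1) ((u : LpC T p) - (S u : LpC T p))‖ +
        ‖c • (av (n + 1) (S e : LpC T p) - one' T p)‖ +
          ‖av (n + 1) (S (h n) : LpC T p)‖ := by
      have e1 : (h n : LpC T p) = av (n + 1) ((u : LpC T p) - (S u : LpC T p)) +
          c • (av (n + 1) (S e : LpC T p) - one' T p) + av (n + 1) (S (h n) : LpC T p) := by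
        rw [h4]; abel
      calc ‖(h n : LpC T p)‖ = ‖av (n + 1) ((u : LpC T p) - (S u : LpC T p)) +
          c • (av (n + 1) (S e : LpC T p) - one' T p) + av (n + 1) (S (h n) : LpC T p)‖ := by
            rw [← e1]
        _ ≤ _ := (norm_add_le _ _).trans (by gcongr; exact norm_add_le _ _)
    rw [norm_smul] at h7
    linarith
  have hlim : Tendsto (fun n : ℕ => M * ‖pl T p P‖ +
      ‖c‖ * ‖av (n + 1) (S e : LpC T p) - one' T p‖ + ‖S (h n)‖) atTop
      (𝓝 (M * ‖pl T p P‖ + ‖c‖ * ‖δ (S e) • one' T p - one' T p‖ + 0)) :=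
    (tendsto_const_nhds.add (tendsto_const_nhds.mul hav)).add hSh'
  have hfin := ge_of_tendsto' hlim hineq
  have h8 : ‖δ (S e) • one' T p - one' T p‖ ≤ ε' := by
    have : δ (S e) • one' T p - one' T p = (δ (S e) - 1) • one' T p := by
      rw [sub_smul, one_smul]
    rw [this, norm_smul, norm_fourierLp, mul_one, norm_sub_rev]
    exact h1
  have h9 : ‖c‖ * ‖δ (S e) • one' T p - one' T p‖ ≤ ε := by
    calc _ ≤ (‖c‖ + 1) * ε' := by gcongr; linarith
      _ = ε := by rw [hε']; field_simp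
  linarith

/-- The main theorem. -/
theorem Mstar_hardy (hp1 : 1 < p) (hp' : p ≠ ⊤) :
    Mstar (hardy T p) = ‖bshift (T := T) (p := p)‖ := by
  have hbdd : BddBelow {M : ℝ | 0 < M ∧ DCAPWith (hardy T p) M} := ⟨0, fun M hM => hM.1.le⟩
  have hup : ∀ M : ℝ, ‖bshift (T := T) (p := p)‖ < M → 0 < M ∧ DCAPWith (hardy T p) M :=
    fun M hM => ⟨lt_of_le_of_lt (ContinuousLinearMap.opNorm_nonneg _) hM,
      dcap_of_bounds hp1 hp' (β := ‖bshift (T := T) (p := p)‖)
        (ContinuousLinearMap.opNorm_nonneg _) boundsH_bshift hM⟩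
  refine le_antisymm ?_ ?_
  · refine le_of_forall_gt fun M hM => ?_
    obtain ⟨M', h1, h2⟩ := exists_between hM
    exact lt_of_le_of_lt (csInf_le hbdd (hup M' h1)) h2
  · refine le_csInf ⟨_, hup (‖bshift (T := T) (p := p)‖ + 1) (by linarith)⟩ ?_
    rintro M ⟨hM0, hM⟩
    exact norm_bshift_le hM0.le (bounds_of_dcap hp1 hp' hM)

end Pool.Agent.Work.MP_d7cff0_an
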