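import Mathlib
import Pool.Agent.Work.MP_d7cff0_an.Shift

/-!
# The exact value for `p = 4`
-/

namespace Pool.Agent.Work.MP_d7cff0_an

open MeasureTheory AddCircle Filter Topology Finset Polynomial
open scoped ENNReal

variable {T : ℝ} [hT : Fact (0 < T)]

/-- The pointwise identity behind the case `p = 4`. -/
lemma pointwise_identity {g : ℝ} (hg : g ^ 2 = g + 1) (c w : ℂ) :
    g * ‖c + w‖ ^ 4 - ‖w‖ ^ 4 -
      (((4 * (2 * g + 1) * ‖c‖ ^ 2 : ℝ) : ℂ) * (starRingEnd ℂ c) * w -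
        ((2 * (g + 1) : ℝ) : ℂ) * (starRingEnd ℂ c) ^ 2 * w ^ 2).re =
      (g - 1) * (‖w‖ ^ 2 + 2 * (g + 1) * ((starRingEnd ℂ c) * w).re - g * ‖c‖ ^ 2) ^ 2 := by
  have h1 : ‖c + w‖ ^ 4 = ((c.re + w.re) ^ 2 + (c.im + w.im) ^ 2) ^ 2 := by
    have : ‖c + w‖ ^ 2 = (c.re + w.re) ^ 2 + (c.im + w.im) ^ 2 := by
      rw [Complex.sq_norm, Complex.normSq_apply, Complex.add_re, Complex.add_im]; ring
    rw [← this]; ring
  have h2 : ‖w‖ ^ 2 = w.re ^ 2 + w.im ^ 2 := by
    rw [Complex.sq_norm, Complex.normSq_apply]; ring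
  have h2' : ‖w‖ ^ 4 = (w.re ^ 2 + w.im ^ 2) ^ 2 := by rw [← h2]; ring
  have h3 : ‖c‖ ^ 2 = c.re ^ 2 + c.im ^ 2 := by
    rw [Complex.sq_norm, Complex.normSq_apply]; ring
  rw [h1, h2', h2, h3]
  simp only [Complex.sub_re, Complex.mul_re, Complex.mul_im, Complex.conj_re, Complex.conj_im,
    Complex.ofReal_re, Complex.ofReal_im, pow_two]
  have h4 : g ^ 3 = 2 * g + 1 := by
    calc g ^ 3 = g * g ^ 2 := by ring
      _ = g * (g + 1) := by rw [hg]
      _ = g ^ 2 + g := by ring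
      _ = _ := by rw [hg]; ring
  ring_nf
  simp only [h4, hg]
  ring

/-- The upper bound for `p = 4`. -/
lemma four_upper {p : ℝ≥0∞} [hp : Fact (1 ≤ p)] (hp4 : p = 4) {g : ℝ} (hg : g ^ 2 = g + 1)
    (hg1 : 1 < g) (P : ℂ[X]) :
    ‖pl T p P - P.eval 0 • one' T p‖ ^ (4 : ℝ) ≤ g * ‖pl T p P‖ ^ (4 : ℝ) := by
  have hp1 : 1 < p := by rw [hp4]; norm_num
  have hp' : p ≠ ⊤ := by rw [hp4]; norm_num
  have hpr : p.toReal = 4 := by rw [hp4]; norm_num
  set c : ℂ := P.eval 0 with hc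
  set H : ℂ[X] := P - C c with hH
  have hH0 : H.eval 0 = 0 := by rw [hH]; simp [hc]
  have hPH : P = C c + H := by rw [hH]; ring
  have hgoal : pl T p P - c • one' T p = pl T p H := by
    have : P = monomial 0 c + H := by rw [hH, monomial_zero_left]; ring
    rw [this, pl_add, pl_monomial]; simp
  rw [hgoal]
  have n1 := norm_pl_rpow (T := T) hp1 hp' H
  have n2 := norm_pl_rpow (T := T) hp1 hp' P
  rw [hpr] at n1 n2
  rw [n1, n2]
  set K : ℂ[X] := C (((4 * (2 * g + 1) * ‖c‖ ^ 2 : ℝ) : ℂ) * (starRingEnd ℂ c)) * H -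
    C (((2 * (g + 1) : ℝ) : ℂ) * (starRingEnd ℂ c) ^ 2) * H ^ 2 with hK
  have hK0 : K.eval 0 = 0 := by
    rw [hK]; simp [hH0]
  have hKint : ∫ t, (pc (T := T) K t).re ∂haarAddCircle = 0 := by
    have h3 := integral_re (𝕜 := ℂ) (integrable_cont (T := T) (pc K).continuous)
    have h4 : ∫ t, pc (T := T) K t ∂haarAddCircle = 0 := by
      have := mean_pc (T := T) K
      rw [hK0] at this
      exact this
    rw [h4] at h3
    simpa using h3
  have hpt : ∀ t : AddCircle T, ‖H.eval (fourier 1 t)‖ ^ (4 : ℝ) + (pc (T := T) K t).re ≤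
      g * ‖P.eval (fourier 1 t)‖ ^ (4 : ℝ) := by
    intro t
    set w := H.eval (fourier (T := T) 1 t) with hw
    have e1 : P.eval (fourier (T := T) 1 t) = c + w := by
      rw [hw]
      conv_lhs => rw [hPH]
      rw [eval_add, eval_C]
    have e2 : pc (T := T) K t = ((4 * (2 * g + 1) * ‖c‖ ^ 2 : ℝ) : ℂ) * (starRingEnd ℂ c) * w -
        ((2 * (g + 1) : ℝ) : ℂ) * (starRingEnd ℂ c) ^ 2 * w ^ 2 := by
      rw [pc_apply, hK]
      simp only [eval_sub, eval_mul, eval_C, eval_pow]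
      rw [← hw]
    rw [e1, e2]
    have h5 := pointwise_identity hg c w
    have h6 : 0 ≤ (g - 1) * (‖w‖ ^ 2 + 2 * (g + 1) * ((starRingEnd ℂ c) * w).re -
        g * ‖c‖ ^ 2) ^ 2 := mul_nonneg (by linarith) (sq_nonneg _)
    have e3 : ∀ x : ℝ, x ^ (4 : ℝ) = x ^ 4 := by
      intro x
      rw [← Real.rpow_natCast x 4]; norm_num
    rw [e3, e3]
    linarith
  have hc1 : Continuous fun t : AddCircle T => ‖H.eval (fourier 1 t)‖ ^ (4 : ℝ) :=
    continuous_eval_pow (by norm_num) (H.continuous.comp (by fun_prop))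
  have hc2 : Continuous fun t : AddCircle T => ‖P.eval (fourier 1 t)‖ ^ (4 : ℝ) :=
    continuous_eval_pow (by norm_num) (P.continuous.comp (by fun_prop))
  have hc3 : Continuous fun t : AddCircle T => (pc (T := T) K t).re :=
    Complex.continuous_re.comp (pc K).continuous
  have h7 : ∫ t, (‖H.eval (fourier 1 t)‖ ^ (4 : ℝ) + (pc (T := T) K t).re) ∂haarAddCircle ≤
      ∫ t : AddCircle T, g * ‖P.eval (fourier 1 t)‖ ^ (4 : ℝ) ∂haarAddCircle :=
    integral_mono (integrable_cont (hc1.add hc3)) (integrable_cont (continuous_const.mul hc2)) hpt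
  rw [integral_add (integrable_cont hc1) (integrable_cont hc3), hKint, add_zero,
    integral_const_mul] at h7
  exact h7

/-- The lower bound for `p = 4`. -/
lemma four_lower {p : ℝ≥0∞} [hp : Fact (1 ≤ p)] (hp4 : p = 4) {g : ℝ} (hg : g ^ 2 = g + 1)
    (hg1 : 1 < g) {β : ℝ} (hβ : BoundsDisc T p β) :
    g ≤ β ^ 4 := by
  have hp1 : 1 < p := by rw [hp4]; norm_num
  have hp' : p ≠ ⊤ := by rw [hp4]; norm_num
  have hpr : p.toReal = 4 := by rw [hp4]; norm_num
  have hg2 : g < 2 := by nlinarith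
  have hg3 : g ^ 3 = 2 * g + 1 := by
    calc g ^ 3 = g * g ^ 2 := by ring
      _ = g * (g + 1) := by rw [hg]
      _ = g ^ 2 + g := by ring
      _ = _ := by rw [hg]; ring
  have hg4 : g ^ 4 = 3 * g + 2 := by
    calc g ^ 4 = g * g ^ 3 := by ring
      _ = g * (2 * g + 1) := by rw [hg3]
      _ = 2 * g ^ 2 + g := by ring
      _ = _ := by rw [hg]; ring
  set a : ℝ := Real.sqrt (g / 2) with ha
  set R : ℝ := Real.sqrt (2 * g ^ 3) with hR
  have ha0 : 0 ≤ a := Real.sqrt_nonneg _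
  have ha2 : a ^ 2 = g / 2 := Real.sq_sqrt (by linarith)
  have ha1 : a < 1 := by nlinarith
  have hR0 : 0 ≤ R := Real.sqrt_nonneg _
  have hR2 : R ^ 2 = 2 * g ^ 3 := Real.sq_sqrt (by positivity)
  have hRa : R * a = g ^ 2 := by
    rw [ha, hR, ← Real.sqrt_mul (by positivity)]
    have : 2 * g ^ 3 * (g / 2) = (g ^ 2) ^ 2 := by ring
    rw [this, Real.sqrt_sq (by positivity)]
  obtain ⟨ψ, hψ, hψm, hψn, -⟩ := exists_moebius (T := T) ha0 ha1
  have h1mem : (1 : C(AddCircle T, ℂ)) ∈ discAlg T := Subalgebra.one_mem _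
  have h1mean : mean (1 : C(AddCircle T, ℂ)) = 1 := by
    have : (1 : C(AddCircle T, ℂ)) = pc 1 := by unfold pc; rw [map_one]
    rw [this, mean_pc]; simp
  set h : C(AddCircle T, ℂ) := ((-(g ^ 2) : ℝ) : ℂ) • (1 : C(AddCircle T, ℂ)) +
    (R : ℂ) • ψ with hh
  have hhmem : h ∈ discAlg T :=
    Subalgebra.add_mem _ (Subalgebra.smul_mem _ h1mem _) (Subalgebra.smul_mem _ hψ _)
  have hhmean : mean h = 0 := by
    rw [hh, mean_add, mean_smul, mean_smul, h1mean, hψm, mul_one, ← Complex.ofReal_mul, hRa,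
      ← Complex.ofReal_add]
    simp
  set F : C(AddCircle T, ℂ) := 1 + h with hF
  have hFmem : F ∈ discAlg T := Subalgebra.add_mem _ h1mem hhmem
  have hFmean : mean F = 1 := by rw [hF, mean_add, h1mean, hhmean, add_zero]
  have hFh : F - mean F • (1 : C(AddCircle T, ℂ)) = h := by
    rw [hFmean, one_smul, hF]; ring
  have h1 := hβ F hFmem
  rw [hFh] at h1
  -- the identity
  have hcirc : ∀ t, ‖h t‖ ^ 2 + 2 * (g + 1) * (h t).re - g = 0 := by
    intro t
    have e1 : ‖ψ t‖ ^ 2 = 1 := by rw [hψn]; norm_num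
    have e2 : h t = ((-(g ^ 2) : ℝ) : ℂ) + (R : ℂ) * ψ t := by
      rw [hh]
      simp only [ContinuousMap.add_apply, ContinuousMap.smul_apply, ContinuousMap.one_apply,
        smul_eq_mul, mul_one]
    rw [Complex.sq_norm, Complex.normSq_apply] at e1 ⊢
    have e3 : (h t).re = -(g ^ 2) + R * (ψ t).re := by
      rw [e2]; simp [-Complex.ofReal_neg, -Complex.ofReal_pow]
    have e4 : (h t).im = R * (ψ t).im := by
      rw [e2]; simp [-Complex.ofReal_neg, -Complex.ofReal_pow]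
    rw [e3, e4, hg]
    have e5 : R ^ 2 * ((ψ t).re * (ψ t).re + (ψ t).im * (ψ t).im) = 2 * (2 * g + 1) := by
      rw [e1, hR2, hg3]; ring
    nlinarith
  have hid : ∀ t, g * ‖F t‖ ^ 4 = ‖h t‖ ^ 4 +
      (((4 * (2 * g + 1) : ℝ) : ℂ) * h t - ((2 * (g + 1) : ℝ) : ℂ) * (h t * h t)).re := by
    intro t
    have e1 := pointwise_identity hg 1 (h t)
    have e2 := hcirc t
    rw [hF, ContinuousMap.add_apply, ContinuousMap.one_apply]
    simp only [norm_one, one_pow, mul_one, map_one, one_mul] at e1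
    rw [e2] at e1
    rw [pow_two (h t)] at e1
    linarith
  have hre : ∫ t, (((4 * (2 * g + 1) : ℝ) : ℂ) * h t -
      ((2 * (g + 1) : ℝ) : ℂ) * (h t * h t)).re ∂(haarAddCircle (T := T)) = 0 := by
    set G : C(AddCircle T, ℂ) := ((4 * (2 * g + 1) : ℝ) : ℂ) • h +
      (-((2 * (g + 1) : ℝ) : ℂ)) • (h * h) with hG
    have hGmean : mean G = 0 := by
      rw [hG, mean_add, mean_smul, mean_smul, mean_mul hhmem hhmem, hhmean]
      simp
    have h3 := integral_re (𝕜 := ℂ) (integrable_cont (T := T) G.continuous)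
    have h4 : ∫ t, G t ∂(haarAddCircle (T := T)) = 0 := hGmean
    rw [h4] at h3
    have e : ∀ t, G t = ((4 * (2 * g + 1) : ℝ) : ℂ) * h t -
      ((2 * (g + 1) : ℝ) : ℂ) * (h t * h t) := by
      intro t
      rw [hG]
      simp only [ContinuousMap.add_apply, ContinuousMap.smul_apply, ContinuousMap.mul_apply,
        smul_eq_mul]
      ring
    simp only [e] at h3
    simpa using h3
  have e3 : ∀ x : ℝ, x ^ (4 : ℝ) = x ^ 4 := by
    intro x
    rw [← Real.rpow_natCast x 4]; norm_num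
  have n1 : ‖tl p h‖ ^ 4 = ∫ t, ‖h t‖ ^ 4 ∂haarAddCircle := by
    have := norm_tl_rpow hp1 hp' h
    rw [hpr] at this
    simpa only [e3] using this
  have n2 : ‖tl p F‖ ^ 4 = ∫ t, ‖F t‖ ^ 4 ∂haarAddCircle := by
    have := norm_tl_rpow hp1 hp' F
    rw [hpr] at this
    simpa only [e3] using this
  have hint : g * ‖tl p F‖ ^ 4 = ‖tl p h‖ ^ 4 := by
    rw [n1, n2, ← integral_const_mul]
    simp only [hid]
    rw [integral_add, hre, add_zero]
    · exact integrable_cont (by fun_prop)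
    · exact integrable_cont (by fun_prop)
  have hFpos : 1 ≤ ‖tl p F‖ := by
    have := norm_coef_le 0 (tl p F)
    rw [← mean_eq_coef, hFmean, norm_one] at this
    exact this
  have h5 : ‖tl p h‖ ^ 4 ≤ (β * ‖tl p F‖) ^ 4 := by gcongr
  rw [← hint, mul_pow] at h5
  have h6 : 0 < ‖tl p F‖ ^ 4 := by positivity
  exact le_of_mul_le_mul_right h5 h6

/-- The exact value for `p = 4`. -/
theorem Mstar_hardy_four {p : ℝ≥0∞} [hp : Fact (1 ≤ p)] (hp4 : p = 4) :
    Mstar (hardy T p) = Real.goldenRatio ^ (1 / 4 : ℝ) := by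
  have hp1 : 1 < p := by rw [hp4]; norm_num
  have hp' : p ≠ ⊤ := by rw [hp4]; norm_num
  have hg : Real.goldenRatio ^ 2 = Real.goldenRatio + 1 := Real.goldenRatio_sq
  have hg1 : 1 < Real.goldenRatio := Real.one_lt_goldenRatio
  have hg0 : 0 < Real.goldenRatio := by linarith
  have hroot : (Real.goldenRatio ^ (1 / 4 : ℝ)) ^ (4 : ℝ) = Real.goldenRatio := by
    rw [← Real.rpow_mul hg0.le]; norm_num
  have hr0 : 0 ≤ Real.goldenRatio ^ (1 / 4 : ℝ) := by positivity
  rw [Mstar_hardy hp1 hp']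
  refine le_antisymm ?_ ?_
  · refine norm_bshift_le hr0 (BoundsH.of_pl hp' fun P => ?_)
    have h := four_upper (T := T) hp4 hg hg1 P
    refine (Real.rpow_le_rpow_iff (z := 4) (norm_nonneg _) (by positivity) (by norm_num)).1 ?_
    rw [Real.mul_rpow hr0 (norm_nonneg _), hroot]
    exact h
  · have h := four_lower (T := T) hp4 hg hg1 (boundsH_bshift (T := T) (p := p)).disc
    have e3 : ∀ x : ℝ, x ^ (4 : ℝ) = x ^ 4 := by
      intro x
      rw [← Real.rpow_natCast x 4]; norm_num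
    refine (Real.rpow_le_rpow_iff (z := 4) hr0 (ContinuousLinearMap.opNorm_nonneg _)
      (by norm_num)).1 ?_
    rw [hroot, e3]
    exact h

end Pool.Agent.Work.MP_d7cff0_an
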